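import Pool.Agent.Q224.LK.CR2
import Pool.Agent.Q285.LK.CPL

/-!
Project LK (helper7), job CR2LA: the condition at the primes above `p`, `d` a local `p`-th power.
-/

set_option autoImplicit false

namespace Pool.Agent.Q224.LK

open NumberField IsDedekindDomain Filter Topology Finset
open Pool.Agent.Q7.LK
open Pool.Agent.Y682 (vv vv_coe)
open Pool.Agent.Q285.LK (exists_proot cpl_coe vv_nat)

section

variable {p : ℕ} [hp : Fact p.Prime] {F L : Type} [Field F] [NumberField F] [Field L] [NumberField L]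
  [Algebra F L] {d : F}

/-- an embedding -/
theorem exists_emb {ζ : F} (hζ : IsPrimitiveRoot ζ p) (hK : Kum p F L d) (hd : ¬ IsPow p d) {E : Type} [Field E]
    [Algebra F E] {δ : E} (hδ : δ ^ p = algebraMap F E d) : Nonempty (L →ₐ[F] E) := by
  obtain ⟨ρ, hρ⟩ := hK.root
  have h1 : (primitiveRoots (Module.finrank F L) F).Nonempty := by
    rw [hK.deg]
    exact ⟨ζ, (mem_primitiveRoots hp.out.pos).2 hζ⟩
  have hroot : ρ ^ (Module.finrank F L) = algebraMap F L d := by rw [hK.deg, hρ]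
  have hsplit := isSplittingField_X_pow_sub_C_of_root_adjoin_eq_top h1 hroot (adjoin_top hK hd hρ)
  have hζE : IsPrimitiveRoot (algebraMap F E ζ) p := hζ.map_of_injective (algebraMap F E).injective
  have h2 := X_pow_sub_C_splits_of_isPrimitiveRoot hζE hδ
  refine ⟨Polynomial.IsSplittingField.lift L (Polynomial.X ^ (Module.finrank F L) - Polynomial.C d) ?_⟩
  rw [hK.deg, Polynomial.map_sub, Polynomial.map_pow, Polynomial.map_X, Polynomial.map_C]
  exact h2

variable {v : HeightOneSpectrum (𝓞 F)}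

theorem int_le (τ : L →ₐ[F] v.adicCompletion F) (x : 𝓞 L) : vv v (τ (x : L)) ≤ 1 := by
  have h1 : IsIntegral ℤ (x : L) := RingOfIntegers.isIntegral_coe x
  have h3 : IsIntegral (v.adicCompletionIntegers F) (τ (x : L)) := by
    obtain ⟨f, hf, hfx⟩ := h1
    refine ⟨f.map (Int.castRingHom _), hf.map _, ?_⟩
    have h4 := congrArg τ hfx
    rw [map_zero] at h4
    have h5 : τ (Polynomial.eval₂ (algebraMap ℤ L) (x : L) f) =
        Polynomial.eval₂ ((τ : L →+* v.adicCompletion F).comp (algebraMap ℤ L)) (τ (x : L)) f :=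
      Polynomial.hom_eval₂ f (algebraMap ℤ L) (τ : L →+* v.adicCompletion F) (x : L)
    rw [Polynomial.eval₂_map, ← h4, h5]
    congr 1
    exact RingHom.ext_int _ _
  obtain ⟨y, hy⟩ := (IsIntegrallyClosed.isIntegral_iff (R := v.adicCompletionIntegers F)
    (K := v.adicCompletion F)).1 h3
  rw [← hy]
  exact y.2

theorem mem_le (τ : L →ₐ[F] v.adicCompletion F) (I : Ideal (𝓞 F)) (hv : I ≤ v.asIdeal) (N : ℕ) {y : 𝓞 L}
    (hy : y ∈ I.map (algebraMap (𝓞 F) (𝓞 L)) ^ N) : vv v (τ (y : L)) ≤ WithZero.exp (-(N : ℤ)) := by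
  rw [← Ideal.map_pow] at hy
  have key : ∀ b : 𝓞 L, vv v (τ (((b * y : 𝓞 L)) : L)) ≤ WithZero.exp (-(N : ℤ)) := by
    unfold Ideal.map at hy
    induction hy using Submodule.span_induction with
    | mem x hx =>
      intro b
      obtain ⟨a, ha, rfl⟩ := hx
      have e1 : ((b * algebraMap (𝓞 F) (𝓞 L) a : 𝓞 L) : L) = algebraMap F L (a : F) * (b : L) := by
        rw [mul_comm]
        rfl
      have e3 : v.valuation F ((a : 𝓞 F) : F) ≤ WithZero.exp (-(N : ℤ)) := by
        have h1 : a ∈ v.asIdeal ^ N := Ideal.pow_right_mono hv N ha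
        have h2 := (v.intValuation_le_pow_iff_mem a N).2 h1
        have h3 := v.valuation_of_algebraMap (K := F) a
        rw [← h3] at h2
        exact h2
      rw [e1, map_mul, AlgHom.commutes, map_mul, vv_coe]
      exact (mul_le_of_le_one_right' (int_le τ b)).trans e3
    | zero =>
      intro b
      rw [mul_zero]
      simp
    | add x z _ _ hx hz =>
      intro b
      have e1 : ((b * (x + z) : 𝓞 L) : L) = ((b * x : 𝓞 L) : L) + ((b * z : 𝓞 L) : L) := by
        rw [mul_add]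
        rfl
      rw [e1, map_add]
      exact (Valuation.map_add _ _ _).trans (max_le (hx b) (hz b))
    | smul c x _ hx =>
      intro b
      rw [smul_eq_mul, ← mul_assoc]
      exact hx (b * c)
  have := key 1
  rwa [one_mul] at this

/-- a nonzero value is at least `exp (-N)` for some `N` -/
theorem exists_small {x : v.adicCompletion F} (hx : x ≠ 0) : ∃ N : ℕ, WithZero.exp (-(N : ℤ)) < vv v x := by
  have h0 : vv v x ≠ 0 := (Valuation.ne_zero_iff _).2 hx
  set k : ℤ := WithZero.log (vv v x) with hk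
  have hk' : vv v x = WithZero.exp k := (WithZero.exp_log h0).symm
  refine ⟨k.natAbs + 1, ?_⟩
  rw [hk', WithZero.exp_lt_exp]
  have h1 := neg_abs_le k
  rw [← Int.natCast_natAbs] at h1
  rw [Nat.cast_add, Nat.cast_one]
  linarith

end

theorem cr2la_raw (hCPL : S_CPL) : S_CR2LA := by
  intro p hp hp2 F L _ _ _ _ _ ζ d hζ hK hd σ hσ I _ v hv w M hw y hy0 hy hLd
  -- an embedding of `L` into the completion
  obtain ⟨_, δ, hδ⟩ := (hCPL p F v d).1 hLd
  rw [cpl_coe] at hδ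
  obtain ⟨τ⟩ := exists_emb hζ hK hd (E := v.adicCompletion F) hδ.symm
  have hpK : ((p : v.adicCompletion F)) ≠ 0 := by
    have e : (p : v.adicCompletion F) = algebraMap F _ (p : F) := by rw [map_natCast]
    rw [e]
    exact (map_ne_zero _).2 (by exact_mod_cast hp.out.ne_zero)
  have hq2 : 2 ≤ p ^ (M + 1) := by
    calc 2 ≤ p := hp.out.two_le
      _ = p ^ 1 := (pow_one p).symm
      _ ≤ p ^ (M + 1) := Nat.pow_le_pow_right hp.out.pos (by omega)
  have hqK : ((p ^ (M + 1) : ℕ) : v.adicCompletion F) ^ 2 ≠ 0 := by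
    rw [Nat.cast_pow]
    exact pow_ne_zero _ (pow_ne_zero _ hpK)
  obtain ⟨N, hN⟩ := exists_small hqK
  obtain ⟨η, hη1, hη2⟩ := hw N
  obtain ⟨c, hc0, hc⟩ := hilb90 hζ hK hd hσ hη1
  set W : L := (((w * η ^ p : (𝓞 L)ˣ) : 𝓞 L) : L) with hW
  have hW' : W = ((w : 𝓞 L) : L) * ((η : 𝓞 L) : L) ^ p := by rw [hW, coe_mul', coe_pow']
  set Y : L := y * c ^ p with hY
  have hσY : σ Y = W * Y := by
    rw [hY, hW', map_mul, map_pow, ← hy, ← hc]
    ring
  -- the conjugates of `W` in the completion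
  have hx : ∀ k : ℕ, ∃ ξ s : v.adicCompletion F, ξ ^ p ^ M = 1 ∧ τ ((σ ^ k) W) = ξ * s ^ p := by
    intro k
    set τk : L →ₐ[F] v.adicCompletion F := τ.comp ((σ ^ k : L ≃ₐ[F] L) : L →ₐ[F] L) with hτk
    have h1 := mem_le τk I hv N hη2
    have h2 : (((((w * η ^ p) ^ p ^ M : (𝓞 L)ˣ) : 𝓞 L) - 1 : 𝓞 L) : L) = W ^ p ^ M - 1 := by
      have e1 : (((((w * η ^ p) ^ p ^ M : (𝓞 L)ˣ) : 𝓞 L) - 1 : 𝓞 L) : L) =
          ((((w * η ^ p) ^ p ^ M : (𝓞 L)ˣ) : 𝓞 L) : L) - ((1 : 𝓞 L) : L) := map_sub (algebraMap (𝓞 L) L) _ _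
      have e2 : ((1 : 𝓞 L) : L) = 1 := map_one (algebraMap (𝓞 L) L)
      rw [e1, e2, coe_pow']
    rw [h2, map_sub, map_pow, map_one] at h1
    have h3 : τk W = τ ((σ ^ k) W) := rfl
    rw [h3] at h1
    obtain ⟨s, hs⟩ := exists_proot v hq2 (τ ((σ ^ k) W) ^ p ^ M - 1) (h1.trans_lt hN)
    rw [add_sub_cancel] at hs
    have hWne : τ ((σ ^ k) W) ≠ 0 := by
      rw [Ne, map_eq_zero, map_eq_zero]
      have := coe_mul' (w * η ^ p) (w * η ^ p)⁻¹
      rw [mul_inv_cancel] at this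
      intro h0
      rw [← hW, h0, zero_mul] at this
      simp at this
    have hs0 : s ≠ 0 := by
      rintro rfl
      rw [zero_pow (by positivity)] at hs
      exact pow_ne_zero _ hWne hs.symm
    refine ⟨τ ((σ ^ k) W) / s ^ p, s, ?_, by rw [div_mul_cancel₀ _ (pow_ne_zero _ hs0)]⟩
    rw [div_pow, ← pow_mul, ← hs, pow_succ', div_self]
    rw [← pow_succ', hs]
    exact pow_ne_zero _ hWne
  choose ξ s hξ hτ using hx
  have hconj : ∀ i : ℕ, τ ((σ ^ i) Y) = (∏ j ∈ range i, ξ j) * (∏ j ∈ range i, s j) ^ p * τ Y := by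
    intro i
    induction i with
    | zero => simp
    | succ i ih =>
      have h1 : (σ ^ (i + 1)) Y = (σ ^ i) W * (σ ^ i) Y := by
        rw [pow_succ, AlgEquiv.mul_apply, hσY, map_mul]
      rw [h1, map_mul, ih, hτ, Finset.prod_range_succ, Finset.prod_range_succ]
      ring
  have hnorm : algebraMap F (v.adicCompletion F) (Algebra.norm F Y) =
      (∏ i ∈ range p, ∏ j ∈ range i, ξ j) * ((∏ i ∈ range p, ∏ j ∈ range i, s j) * τ Y) ^ p := by
    rw [← AlgHom.commutes τ, norm_eq hK.deg hσ, map_prod, Finset.prod_congr rfl fun i _ => hconj i,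
      Finset.prod_mul_distrib, Finset.prod_mul_distrib, Finset.prod_const, Finset.card_range, Finset.prod_pow, mul_pow,
      mul_assoc]
  set Ξ := ∏ i ∈ range p, ∏ j ∈ range i, ξ j with hΞ
  have hΞ1 : Ξ ^ p ^ M = 1 := by
    rw [hΞ, ← Finset.prod_pow]
    refine Finset.prod_eq_one fun i _ => ?_
    rw [← Finset.prod_pow]
    exact Finset.prod_eq_one fun j _ => hξ j
  have hΞ0 : Ξ ≠ 0 := by
    intro h
    rw [h, zero_pow (pow_pos hp.out.pos M).ne'] at hΞ1
    exact zero_ne_one hΞ1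
  have hNc : Algebra.norm F c ≠ 0 := Algebra.norm_ne_zero_iff.2 hc0
  have hNcK : algebraMap F (v.adicCompletion F) (Algebra.norm F c) ≠ 0 := (map_ne_zero _).2 hNc
  rw [hY, map_mul, map_pow, map_mul, map_pow] at hnorm
  refine ⟨Ξ⁻¹, ((∏ i ∈ range p, ∏ j ∈ range i, s j) * τ Y) / algebraMap F (v.adicCompletion F) (Algebra.norm F c),
    ⟨M, by rw [inv_pow, hΞ1, inv_one]⟩, ?_⟩
  rw [cpl_coe, div_pow, eq_div_iff (pow_ne_zero _ hNcK), mul_right_comm, hnorm, hY]
  rw [mul_right_comm, mul_inv_cancel₀ hΞ0, one_mul]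

theorem cr2la : S_BAS → S_CPL → S_CR2LA := fun _ h => cr2la_raw h

end Pool.Agent.Q224.LK
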