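import Pool.Agent.Q224.LK.Gal

/-!
Project LK (helper7), job CR1: a unit of relative norm `1` from a relation.
-/

set_option autoImplicit false

namespace Pool.Agent.Q224.LK

open NumberField IsDedekindDomain Filter Topology Finset
open Pool.Agent.Q7.LK

section ev

variable {G : Type} [CommGroup G] {n : ℕ}

/-- `∏ θ ^ m` -/
def ev (θ : Fin n → G) (m : Fin n → ℤ) : G := ∏ j, θ j ^ m j

theorem ev_add (θ : Fin n → G) (m m' : Fin n → ℤ) : ev θ (m + m') = ev θ m * ev θ m' := by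
  unfold ev
  rw [← Finset.prod_mul_distrib]
  exact Finset.prod_congr rfl fun i _ => zpow_add _ _ _

theorem ev_smul (θ : Fin n → G) (c : ℤ) (m : Fin n → ℤ) : ev θ (c • m) = ev θ m ^ c := by
  unfold ev
  rw [← Finset.prod_zpow]
  refine Finset.prod_congr rfl fun i _ => ?_
  rw [Pi.smul_apply, smul_eq_mul, mul_comm, zpow_mul]

theorem ev_neg (θ : Fin n → G) (m : Fin n → ℤ) : ev θ (-m) = (ev θ m)⁻¹ := by
  have h := ev_smul θ (-1) m
  rw [neg_one_smul] at h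
  rw [h, zpow_neg_one]

theorem ev_sub (θ : Fin n → G) (m m' : Fin n → ℤ) : ev θ (m - m') = ev θ m / ev θ m' := by
  rw [sub_eq_add_neg, ev_add, ev_neg, div_eq_mul_inv]

theorem ev_sum {ι : Type} (s : Finset ι) (θ : Fin n → G) (m : ι → Fin n → ℤ) :
    ev θ (∑ k ∈ s, m k) = ∏ k ∈ s, ev θ (m k) := by
  classical
  induction s using Finset.induction_on with
  | empty => simp [ev]
  | insert a s ha ih => rw [Finset.prod_insert ha, Finset.sum_insert ha, ev_add, ih]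

theorem ev_vec (θ : Fin n → G) (A : Matrix (Fin n) (Fin n) ℤ) (m : Fin n → ℤ) :
    ∏ i, ev θ (A i) ^ m i = ev θ (Matrix.vecMul m A) := by
  have h1 : Matrix.vecMul m A = ∑ i, m i • A i := by
    funext j
    rw [Finset.sum_apply]
    rfl
  rw [h1, ev_sum]
  exact Finset.prod_congr rfl fun i _ => (ev_smul θ (m i) (A i)).symm

theorem ev_map {H : Type} [CommGroup H] (f : G →* H) (θ : Fin n → G) (m : Fin n → ℤ) :
    f (ev θ m) = ev (fun i => f (θ i)) m := by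
  unfold ev
  rw [map_prod]
  exact Finset.prod_congr rfl fun i _ => map_zpow f _ _

theorem ev_inj {θ : Fin n → G} (hθ : ∀ c : Fin n → ℤ, ∏ i, θ i ^ c i = 1 → c = 0) {k : ℕ} (hk : 0 < k)
    {m m' : Fin n → ℤ} (h : ev θ m ^ k = ev θ m' ^ k) : m = m' := by
  have h1 : ev θ ((k : ℤ) • (m - m')) = 1 := by
    rw [ev_smul, ev_sub, zpow_natCast, div_pow, h, div_self']
  have h2 := hθ _ h1
  have hk' : (k : ℤ) ≠ 0 := by exact_mod_cast hk.ne'
  have h3 := (smul_eq_zero.1 h2).resolve_left hk'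
  exact sub_eq_zero.1 h3

end ev

section rel

variable {p : ℕ} [hp : Fact p.Prime] {K : Type} [Field K] [NumberField K]

/-- the units congruent to `1` -/
def US (J : Ideal (𝓞 K)) : Subgroup (𝓞 K)ˣ where
  carrier := {u | (u : 𝓞 K) - 1 ∈ J}
  mul_mem' := by
    intro u v hu hv
    show ((u * v : (𝓞 K)ˣ) : 𝓞 K) - 1 ∈ J
    have e : ((u * v : (𝓞 K)ˣ) : 𝓞 K) - 1 = ((u : 𝓞 K) - 1) * v + ((v : 𝓞 K) - 1) := by
      rw [Units.val_mul]
      ring
    rw [e]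
    exact J.add_mem (J.mul_mem_right _ hu) hv
  one_mem' := by
    show ((1 : (𝓞 K)ˣ) : 𝓞 K) - 1 ∈ J
    simp
  inv_mem' := by
    intro u hu
    show ((u⁻¹ : (𝓞 K)ˣ) : 𝓞 K) - 1 ∈ J
    have e : ((u⁻¹ : (𝓞 K)ˣ) : 𝓞 K) - 1 = -(((u : 𝓞 K) - 1) * ((u⁻¹ : (𝓞 K)ˣ) : 𝓞 K)) := by
      have h : (u : 𝓞 K) * ((u⁻¹ : (𝓞 K)ˣ) : 𝓞 K) = 1 := Units.mul_inv u
      linear_combination h
    rw [e]
    exact J.neg_mem (J.mul_mem_right _ hu)

theorem rel_zero (J : Ideal (𝓞 K)) {n : ℕ} (ε : Fin n → (𝓞 K)ˣ) : Rel p K J ε 0 := by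
  refine ⟨fun _ _ => 0, fun i => ?_, fun N => ?_⟩
  · simp
  · refine Filter.Eventually.of_forall fun k => ?_
    simp

theorem rel_add {J : Ideal (𝓞 K)} {n : ℕ} {ε : Fin n → (𝓞 K)ˣ} {a b : Fin n → ℤ_[p]} (ha : Rel p K J ε a)
    (hb : Rel p K J ε b) : Rel p K J ε (a + b) := by
  obtain ⟨m, hm1, hm2⟩ := ha
  obtain ⟨m', hm1', hm2'⟩ := hb
  refine ⟨fun k => m k + m' k, fun i => ?_, fun N => ?_⟩
  · have := (hm1 i).add (hm1' i)
    simpa using this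
  · filter_upwards [hm2 N, hm2' N] with k h1 h2
    have h3 : ev ε (m k) * ev ε (m' k) ∈ US (J ^ N) := (US (J ^ N)).mul_mem h1 h2
    rw [← ev_add] at h3
    exact h3

theorem rel_smul {J : Ideal (𝓞 K)} {n : ℕ} {ε : Fin n → (𝓞 K)ˣ} {a : Fin n → ℤ_[p]} (ha : Rel p K J ε a)
    (x : ℤ_[p]) : Rel p K J ε (x • a) := by
  obtain ⟨m, hm1, hm2⟩ := ha
  obtain ⟨y, hy⟩ : ∃ y : ℕ → ℤ, Tendsto (fun k => ((y k : ℤ) : ℤ_[p])) atTop (𝓝 x) := by
    have hd : DenseRange (Int.cast : ℤ → ℤ_[p]) := PadicInt.denseRange_intCast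
    obtain ⟨f, hf, hf2⟩ := mem_closure_iff_seq_limit.1 (hd x)
    choose y hy using hf
    refine ⟨y, ?_⟩
    have e : (fun k => ((y k : ℤ) : ℤ_[p])) = f := funext hy
    rw [e]
    exact hf2
  refine ⟨fun k => y k • m k, fun i => ?_, fun N => ?_⟩
  · have := hy.mul (hm1 i)
    simpa using this
  · filter_upwards [hm2 N] with k h1
    have h3 : (ev ε (m k)) ^ (y k) ∈ US (J ^ N) := (US (J ^ N)).zpow_mem h1 _
    rw [← ev_smul] at h3
    exact h3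

/-- the module of the relations -/
def RelM (J : Ideal (𝓞 K)) {n : ℕ} (ε : Fin n → (𝓞 K)ˣ) : Submodule ℤ_[p] (Fin n → ℤ_[p]) where
  carrier := {a | Rel p K J ε a}
  add_mem' := fun ha hb => rel_add ha hb
  zero_mem' := rel_zero J ε
  smul_mem' := fun x _ ha => rel_smul ha x

/-- the saturation of the module of the relations -/
def RelS (J : Ideal (𝓞 K)) {n : ℕ} (ε : Fin n → (𝓞 K)ˣ) : Submodule ℤ_[p] (Fin n → ℤ_[p]) where
  carrier := {a | ∃ c : ℕ, c ≠ 0 ∧ Rel p K J ε ((c : ℤ_[p]) • a)}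
  add_mem' := by
    rintro a b ⟨c, hc, ha⟩ ⟨c', hc', hb⟩
    refine ⟨c * c', mul_ne_zero hc hc', ?_⟩
    have e : ((c * c' : ℕ) : ℤ_[p]) • (a + b) = (c' : ℤ_[p]) • ((c : ℤ_[p]) • a) + (c : ℤ_[p]) • ((c' : ℤ_[p]) • b) := by
      rw [smul_add, smul_smul, smul_smul, Nat.cast_mul, mul_comm (c' : ℤ_[p])]
    rw [e]
    exact rel_add (rel_smul ha _) (rel_smul hb _)
  zero_mem' := ⟨1, one_ne_zero, by rw [smul_zero]; exact rel_zero J ε⟩
  smul_mem' := by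
    rintro x a ⟨c, hc, ha⟩
    refine ⟨c, hc, ?_⟩
    rw [smul_comm]
    exact rel_smul ha x

/-- relations of powers -/
theorem rel_pow {J : Ideal (𝓞 K)} {n : ℕ} {θ θ' : Fin n → (𝓞 K)ˣ} {h : ℕ} {A : Matrix (Fin n) (Fin n) ℤ}
    (hA : ∀ i, θ' i ^ h = ev θ (A i) ^ h) {x : Fin n → ℤ_[p]} (hx : Rel p K J θ' x) :
    Rel p K J θ ((h : ℤ_[p]) • Matrix.vecMul x (A.map (Int.cast : ℤ → ℤ_[p]))) := by
  obtain ⟨m, hm1, hm2⟩ := hx
  refine ⟨fun k => (h : ℤ) • Matrix.vecMul (m k) A, fun j => ?_, fun N => ?_⟩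
  · have h1 : ∀ i, Tendsto (fun k => ((m k i : ℤ) : ℤ_[p]) * ((A i j : ℤ) : ℤ_[p])) atTop
        (𝓝 (x i * ((A i j : ℤ) : ℤ_[p]))) := fun i => (hm1 i).mul_const _
    have h2 := tendsto_finsetSum univ fun i _ => h1 i
    have h3 := h2.const_mul (h : ℤ_[p])
    have e1 : (fun k => ((((h : ℤ) • Matrix.vecMul (m k) A) j : ℤ) : ℤ_[p])) =
        fun k => (h : ℤ_[p]) * ∑ i, ((m k i : ℤ) : ℤ_[p]) * ((A i j : ℤ) : ℤ_[p]) := by
      funext k
      rw [Pi.smul_apply, smul_eq_mul]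
      push_cast
      congr 1
      show ((∑ i, m k i * A i j : ℤ) : ℤ_[p]) = _
      push_cast
      rfl
    rw [e1]
    exact h3
  · filter_upwards [hm2 N] with k h1
    have h3 : (ev θ' (m k)) ^ h ∈ US (J ^ N) := (US (J ^ N)).pow_mem h1 _
    have h4 : (ev θ' (m k)) ^ h = ev θ ((h : ℤ) • Matrix.vecMul (m k) A) := by
      rw [ev_smul, ← ev_vec, zpow_natCast]
      unfold ev
      rw [← Finset.prod_pow, ← Finset.prod_pow]
      refine Finset.prod_congr rfl fun i _ => ?_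
      have := hA i
      unfold ev at this
      rw [← zpow_natCast (θ' i ^ m k i), ← zpow_natCast (_ ^ m k i), zpow_comm, zpow_comm _ (m k i), zpow_natCast,
        zpow_natCast, this]
    rw [h4] at h3
    exact h3

end rel

theorem dvd_int {p : ℕ} [Fact p.Prime] {m : ℕ} {n : ℤ} (h : (p : ℤ_[p]) ^ m ∣ (n : ℤ_[p])) : (p : ℤ) ^ m ∣ n :=
  (PadicInt.pow_p_dvd_int_iff (p := p) m n).1 h

theorem near_dvd {p : ℕ} [Fact p.Prime] {x y : ℤ_[p]} {m : ℕ} (h : ‖x - y‖ < (p : ℝ) ^ (-(m : ℤ))) :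
    (p : ℤ_[p]) ^ (m + 1) ∣ x - y := by
  have h1 : ‖x - y‖ ≤ (p : ℝ) ^ (-((m + 1 : ℕ) : ℤ)) := by
    have := (PadicInt.norm_le_pow_iff_norm_lt_pow_add_one (p := p) (x - y) (-((m + 1 : ℕ) : ℤ))).2
    push_cast at this ⊢
    apply this
    have e : (-((m : ℤ) + 1) + 1) = -(m : ℤ) := by ring
    rw [e]
    exact h
  have h2 := (PadicInt.norm_le_pow_iff_mem_span_pow (p := p) (x - y) (m + 1)).1 (by exact_mod_cast h1)
  rwa [Ideal.mem_span_singleton] at h2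

theorem exists_rep {p : ℕ} [Fact p.Prime] (x : ℤ_[p]) : ∃ w : ℤ, (p : ℤ_[p]) ∣ x - (w : ℤ_[p]) := by
  obtain ⟨n, -, hn⟩ := PadicInt.exists_mem_range (p := p) x
  refine ⟨n, ?_⟩
  rw [PadicInt.maximalIdeal_eq_span_p, Ideal.mem_span_singleton] at hn
  exact_mod_cast hn

section conj

variable {F L : Type} [Field F] [NumberField F] [Field L] [NumberField L] [Algebra F L]

/-- the automorphism of the integers -/
noncomputable def gI (σ : L ≃ₐ[F] L) : 𝓞 L ≃ₐ[𝓞 F] 𝓞 L := galRestrict (𝓞 F) F L (𝓞 L) σ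

theorem gI_coe (σ : L ≃ₐ[F] L) (x : 𝓞 L) : ((gI σ x : 𝓞 L) : L) = σ (x : L) :=
  algebraMap_galRestrict_apply (𝓞 F) σ x

theorem gI_mem (σ : L ≃ₐ[F] L) (I : Ideal (𝓞 F)) (N : ℕ) {x : 𝓞 L}
    (hx : x ∈ I.map (algebraMap (𝓞 F) (𝓞 L)) ^ N) : gI σ x ∈ I.map (algebraMap (𝓞 F) (𝓞 L)) ^ N := by
  have h1 := Ideal.mem_map_of_mem (gI σ : 𝓞 L →+* 𝓞 L) hx
  rw [Ideal.map_pow, Ideal.map_map] at h1
  have h2 : ((gI σ : 𝓞 L →+* 𝓞 L).comp (algebraMap (𝓞 F) (𝓞 L))) = algebraMap (𝓞 F) (𝓞 L) := by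
    ext x
    simp
  rw [h2] at h1
  exact h1

/-- the automorphism of the units -/
noncomputable def gU (σ : L ≃ₐ[F] L) : (𝓞 L)ˣ →* (𝓞 L)ˣ := Units.map (gI σ : 𝓞 L →* 𝓞 L)

theorem gU_coe (σ : L ≃ₐ[F] L) (x : (𝓞 L)ˣ) : (((gU σ x : (𝓞 L)ˣ) : 𝓞 L) : L) = σ ((x : 𝓞 L) : L) :=
  gI_coe σ x

theorem unit_ext {x y : (𝓞 L)ˣ} (h : ((x : 𝓞 L) : L) = ((y : 𝓞 L) : L)) : x = y :=
  Units.ext (RingOfIntegers.ext h)

theorem gU_iter (σ : L ≃ₐ[F] L) (k : ℕ) (x : (𝓞 L)ˣ) :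
    ((((gU σ)^[k] x : (𝓞 L)ˣ) : 𝓞 L) : L) = (σ ^ k) ((x : 𝓞 L) : L) := by
  induction k with
  | zero => rfl
  | succ k ih => rw [Function.iterate_succ_apply', gU_coe, ih, pow_succ', AlgEquiv.mul_apply]

theorem coe_mul' (x y : (𝓞 L)ˣ) : (((x * y : (𝓞 L)ˣ) : 𝓞 L) : L) = ((x : 𝓞 L) : L) * ((y : 𝓞 L) : L) := by
  rw [Units.val_mul]
  exact map_mul (algebraMap (𝓞 L) L) _ _

theorem coe_pow' (x : (𝓞 L)ˣ) (k : ℕ) : (((x ^ k : (𝓞 L)ˣ) : 𝓞 L) : L) = ((x : 𝓞 L) : L) ^ k := by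
  rw [Units.val_pow_eq_pow_val]
  exact map_pow (algebraMap (𝓞 L) L) _ _

theorem coe_prod' {ι : Type} (s : Finset ι) (f : ι → (𝓞 L)ˣ) :
    (((∏ k ∈ s, f k : (𝓞 L)ˣ) : 𝓞 L) : L) = ∏ k ∈ s, (((f k : (𝓞 L)ˣ) : 𝓞 L) : L) := by
  rw [Units.coe_prod]
  exact map_prod (algebraMap (𝓞 L) L) _ _

variable {p : ℕ} [hp : Fact p.Prime]

/-- conjugate relations -/
theorem rel_conj (σ : L ≃ₐ[F] L) (I : Ideal (𝓞 F)) {n : ℕ} {θ : Fin n → (𝓞 L)ˣ} {x : Fin n → ℤ_[p]}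
    (hx : Rel p L (I.map (algebraMap (𝓞 F) (𝓞 L))) θ x) :
    Rel p L (I.map (algebraMap (𝓞 F) (𝓞 L))) (fun i => gU σ (θ i)) x := by
  obtain ⟨m, hm1, hm2⟩ := hx
  refine ⟨m, hm1, fun N => ?_⟩
  filter_upwards [hm2 N] with k h1
  have h2 := gI_mem σ I N h1
  rw [map_sub, map_one] at h2
  have h3 := ev_map (gU σ) θ (m k)
  have h4 : ((ev (fun i => gU σ (θ i)) (m k) : (𝓞 L)ˣ) : 𝓞 L) = gI σ ((ev θ (m k) : (𝓞 L)ˣ) : 𝓞 L) := by
    rw [← h3]
    rfl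
  show ((ev (fun i => gU σ (θ i)) (m k) : (𝓞 L)ˣ) : 𝓞 L) - 1 ∈ _
  rw [h4]
  exact h2

end conj

theorem cr1 : S_CR1A → S_LA → S_CR1 := by
  intro hCR1A hLA p hp hp2 F L _ _ _ _ _ ζ d hζ hK hd I hI s hs hL σ hσ
  obtain ⟨n, θ, h, hh, hθN, hθind, hgen, a, ha, hRel⟩ := hCR1A p hp2 F L ζ d hζ hK hd I hI s hs hL
  set J := I.map (algebraMap (𝓞 F) (𝓞 L)) with hJ
  -- the norm one subgroup
  let ν : (𝓞 L)ˣ →* Fˣ :=
    Units.map ((Algebra.norm F : L →* F).comp (algebraMap (𝓞 L) L : 𝓞 L →* L))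
  have hν : ∀ u : (𝓞 L)ˣ, Algebra.norm F ((u : 𝓞 L) : L) = 1 ↔ u ∈ ν.ker := by
    intro u
    rw [MonoidHom.mem_ker, Units.ext_iff]
    rfl
  have hevN : ∀ m : Fin n → ℤ, ev θ m ∈ ν.ker := fun m =>
    Subgroup.prod_mem _ fun i _ => Subgroup.zpow_mem _ ((hν _).1 (hθN i)) _
  have hgN : ∀ u : (𝓞 L)ˣ, Algebra.norm F ((u : 𝓞 L) : L) = 1 → Algebra.norm F (((gU σ u : (𝓞 L)ˣ) : 𝓞 L) : L) = 1 := by
    intro u hu
    rw [gU_coe, norm_conj hK.deg hσ, hu]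
  -- the matrix of `σ`
  choose A hA using fun i => hgen (gU σ (θ i)) (hgN _ (hθN i))
  have hA' : ∀ i, gU σ (θ i) ^ h = ev θ (A i) ^ h := hA
  have hstep : ∀ m : Fin n → ℤ, gU σ (ev θ m) ^ h = ev θ (Matrix.vecMul m (Matrix.of A)) ^ h := by
    intro m
    rw [← ev_vec, ev_map]
    unfold ev
    rw [← Finset.prod_pow, ← Finset.prod_pow]
    refine Finset.prod_congr rfl fun i _ => ?_
    have := hA i
    rw [← zpow_natCast (gU σ (θ i) ^ m i), ← zpow_natCast (_ ^ m i), zpow_comm, zpow_comm _ (m i), zpow_natCast,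
      zpow_natCast, this]
    rfl
  have hpow : ∀ (k : ℕ) (i : Fin n), ((gU σ)^[k] (θ i)) ^ h = ev θ (((Matrix.of A) ^ k) i) ^ h := by
    intro k i
    induction k with
    | zero =>
      rw [Function.iterate_zero, id, pow_zero]
      congr 1
      unfold ev
      rw [Finset.prod_eq_single i]
      · rw [Matrix.one_apply_eq, zpow_one]
      · intro j _ hj
        rw [Matrix.one_apply_ne (Ne.symm hj), zpow_zero]
      · intro h; exact absurd (mem_univ i) h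
    | succ k ih =>
      rw [Function.iterate_succ_apply', ← map_pow, ih, map_pow, hstep, pow_succ]
      rfl
  have hsum0 : ∑ k ∈ range p, (Matrix.of A) ^ k = 0 := by
    ext i j
    have h1 : ∏ k ∈ range p, (gU σ)^[k] (θ i) = 1 := by
      apply unit_ext
      rw [coe_prod', Finset.prod_congr rfl fun k _ => gU_iter σ k (θ i), ← norm_eq hK.deg hσ, hθN i, map_one]
      simp
    have h2 : ev θ (∑ k ∈ range p, ((Matrix.of A) ^ k) i) ^ h = ev θ 0 ^ h := by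
      rw [ev_sum, ← Finset.prod_pow, ← Finset.prod_congr rfl fun k _ => hpow k i, Finset.prod_pow, h1]
      simp [ev]
    have h3 := ev_inj hθind hh h2
    rw [Matrix.sum_apply]
    have h4 := congrFun h3 j
    rw [Finset.sum_apply] at h4
    exact h4
  set B : Matrix (Fin n) (Fin n) ℤ := Matrix.of A - 1 with hB
  have hsumB : ∑ i ∈ range p, (1 + B) ^ i = 0 := by
    have : (1 : Matrix (Fin n) (Fin n) ℤ) + B = Matrix.of A := by rw [hB]; abel
    rw [this, hsum0]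
  -- the saturated module
  have hstab : ∀ x ∈ RelS (p := p) J θ, Matrix.vecMul x (B.map (Int.cast : ℤ → ℤ_[p])) ∈ RelS (p := p) J θ := by
    intro x hx
    have hx' := hx
    obtain ⟨c, hc, h1⟩ := hx
    have h2 := rel_pow (A := Matrix.of A) hA' (rel_conj σ I h1)
    have h3 : Matrix.vecMul x ((Matrix.of A).map (Int.cast : ℤ → ℤ_[p])) ∈ RelS (p := p) J θ := by
      refine ⟨h * c, mul_ne_zero hh.ne' hc, ?_⟩
      rw [Matrix.smul_vecMul, smul_smul] at h2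
      rw [Nat.cast_mul]
      exact h2
    have h4 : B.map (Int.cast : ℤ → ℤ_[p]) = (Matrix.of A).map (Int.cast : ℤ → ℤ_[p]) - 1 := by
      ext i j
      rw [hB]
      by_cases hij : i = j
      · subst hij; simp
      · simp [Matrix.one_apply_ne hij]
    rw [h4, Matrix.vecMul_sub, Matrix.vecMul_one]
    exact Submodule.sub_mem _ h3 hx'
  have hsat : ∀ x : Fin n → ℤ_[p], (p : ℤ_[p]) • x ∈ RelS (p := p) J θ → x ∈ RelS (p := p) J θ := by
    rintro x ⟨c, hc, h1⟩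
    refine ⟨c * p, mul_ne_zero hc hp.out.ne_zero, ?_⟩
    rw [smul_smul] at h1
    rw [Nat.cast_mul]
    exact h1
  have hne : RelS (p := p) J θ ≠ ⊥ := by
    intro hbot
    have h1 : a ∈ RelS (p := p) J θ := ⟨1, one_ne_zero, by rw [Nat.cast_one, one_smul]; exact hRel⟩
    rw [hbot, Submodule.mem_bot] at h1
    exact ha h1
  obtain ⟨⟨x, hxR, hxB⟩, Q, hQ⟩ := hLA p n B hsumB (RelS (p := p) J θ) hstab hsat hne
  choose W hW using fun i => exists_rep (x i)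
  choose Y hY using hW
  refine ⟨ev θ W, (hν _).2 (hevN W), ?_, ?_⟩
  · -- independence
    intro η j hη heq
    obtain ⟨c, hc⟩ := hgen η hη
    have hc' : η ^ h = ev θ c ^ h := hc
    have h1 : (ev θ W * η) ^ p = (gU σ η) ^ p := by
      apply unit_ext
      rw [coe_pow', coe_pow', coe_mul', heq, gU_coe, mul_pow, ← pow_mul, mul_comm j p, pow_mul, ← map_pow,
        hζ.pow_eq_one, map_one, one_pow, one_mul]
    have h2 : ev θ (W + c) ^ (h * p) = ev θ (Matrix.vecMul c (Matrix.of A)) ^ (h * p) := by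
      rw [pow_mul, pow_mul, ← hstep c, ev_add, mul_pow, ← hc', ← map_pow, ← hc', map_pow, ← mul_pow, ← pow_mul,
        ← pow_mul, mul_comm h p, pow_mul, pow_mul, h1]
    have h3 := ev_inj hθind (Nat.mul_pos hh hp.out.pos) h2
    apply hxB ((fun i => (c i : ℤ_[p])) + Matrix.vecMul Y (Q.map (Int.cast : ℤ → ℤ_[p])))
    have h4 : (B.map (Int.cast : ℤ → ℤ_[p])) = (B.map (Int.castRingHom ℤ_[p])) := rfl
    have h5 : Matrix.vecMul (fun i => (c i : ℤ_[p])) (B.map (Int.cast : ℤ → ℤ_[p])) = fun i => ((W i : ℤ) : ℤ_[p]) := by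
      have h6 : Matrix.vecMul c B = W := by
        rw [hB, Matrix.vecMul_sub, Matrix.vecMul_one, ← h3]; abel
      funext i
      rw [← h6]
      show ∑ j, (c j : ℤ_[p]) * (B j i : ℤ_[p]) = ((∑ j, c j * B j i : ℤ) : ℤ_[p])
      push_cast
      rfl
    have h6 : (Q.map (Int.cast : ℤ → ℤ_[p])) * (B.map (Int.cast : ℤ → ℤ_[p])) =
        (p : Matrix (Fin n) (Fin n) ℤ_[p]) := by
      have h7 := congrArg (fun M : Matrix (Fin n) (Fin n) ℤ => M.map (Int.castRingHom ℤ_[p])) hQ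
      simp only [Matrix.map_mul] at h7
      have h8 : (p : Matrix (Fin n) (Fin n) ℤ).map (Int.castRingHom ℤ_[p]) = (p : Matrix (Fin n) (Fin n) ℤ_[p]) := by
        exact map_natCast (Int.castRingHom ℤ_[p]).mapMatrix p
      rw [h8] at h7
      exact h7
    rw [Matrix.add_vecMul, Matrix.vecMul_vecMul, h6, h5]
    funext i
    have h9 : Matrix.vecMul Y (p : Matrix (Fin n) (Fin n) ℤ_[p]) = (p : ℤ_[p]) • Y := by
      have : (p : Matrix (Fin n) (Fin n) ℤ_[p]) = (p : ℤ_[p]) • (1 : Matrix (Fin n) (Fin n) ℤ_[p]) := by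
        rw [Matrix.smul_one_eq_diagonal]
        rfl
      rw [this, Matrix.vecMul_smul, Matrix.vecMul_one]
    rw [h9, Pi.add_apply, Pi.smul_apply, smul_eq_mul]
    linear_combination hY i
  · -- almost torsion
    obtain ⟨c, hc, hcR⟩ := hxR
    have hc0 : (c : ℤ_[p]) ≠ 0 := by exact_mod_cast hc
    set M := (c : ℤ_[p]).valuation with hM
    have hrel : Rel p L J θ ((p : ℤ_[p]) ^ M • x) := by
      have h1 := PadicInt.unitCoeff_spec hc0
      have h2 : (p : ℤ_[p]) ^ M • x = (((PadicInt.unitCoeff hc0)⁻¹ : ℤ_[p]ˣ) : ℤ_[p]) • ((c : ℤ_[p]) • x) := by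
        rw [smul_smul]
        congr 1
        calc (p : ℤ_[p]) ^ M = (((PadicInt.unitCoeff hc0)⁻¹ : ℤ_[p]ˣ) : ℤ_[p]) *
              ((PadicInt.unitCoeff hc0 : ℤ_[p]) * (p : ℤ_[p]) ^ M) := by rw [← mul_assoc, Units.inv_mul, one_mul]
          _ = _ := congrArg _ h1.symm
      rw [h2]
      exact rel_smul hcR _
    refine ⟨M, fun N => ?_⟩
    obtain ⟨m, hm1, hm2⟩ := hrel
    have hev : ∀ᶠ k in atTop, ∀ i, ‖((m k i : ℤ) : ℤ_[p]) - ((p : ℤ_[p]) ^ M • x) i‖ < (p : ℝ) ^ (-(M : ℤ)) := by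
      rw [Filter.eventually_all]
      intro i
      have hp0 : (0 : ℝ) < p := by exact_mod_cast hp.out.pos
      have := (Metric.tendsto_nhds.1 (hm1 i)) ((p : ℝ) ^ (-(M : ℤ))) (by positivity)
      filter_upwards [this] with k hk
      rwa [dist_eq_norm] at hk
    obtain ⟨k, hk1, hk2⟩ := (hev.and (hm2 N)).exists
    have hex : ∀ i, ∃ n' : ℤ, m k i = (p : ℤ) ^ M * (W i + p * n') := by
      intro i
      obtain ⟨y, hy⟩ := near_dvd (hk1 i)
      have h1 : ((m k i - (p : ℤ) ^ M * W i : ℤ) : ℤ_[p]) = (p : ℤ_[p]) ^ (M + 1) * (y + Y i) := by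
        rw [Pi.smul_apply, smul_eq_mul] at hy
        have h2 : x i = W i + p * Y i := by linear_combination hY i
        rw [h2] at hy
        push_cast
        linear_combination hy
      obtain ⟨n', hn'⟩ := dvd_int (m := M + 1) ⟨_, h1⟩
      refine ⟨n', ?_⟩
      have : m k i = (p : ℤ) ^ M * W i + (p : ℤ) ^ (M + 1) * n' := by
        linear_combination hn'
      rw [this]
      ring
    choose n' hn' using hex
    refine ⟨ev θ n', (hν _).2 (hevN n'), ?_⟩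
    have e : (ev θ W * ev θ n' ^ p) ^ p ^ M = ev θ (m k) := by
      have h1 : m k = ((p ^ M : ℕ) : ℤ) • (W + (p : ℤ) • n') := by
        funext i
        rw [hn' i]
        simp
      rw [h1, ev_smul, ev_add, ev_smul, zpow_natCast, zpow_natCast]
    rw [e]
    exact hk2

end Pool.Agent.Q224.LK
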