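import Pool.Agent.Q224.LK.CR1
import Pool.Agent.Q7.LK.Stm3

/-!
Project LK (helper7), job CR1BM: several units of relative norm `1` from several relations.
-/

set_option autoImplicit false

namespace Pool.Agent.Q224.LK

open NumberField IsDedekindDomain Filter Topology Finset
open Pool.Agent.Q7.LK

/-- `1 + T + ... + T^(p-1) = 0` for `T = 1 + B` gives `Q B = p` -/
theorem exists_quot {p n : ℕ} {B : Matrix (Fin n) (Fin n) ℤ} (h : ∑ i ∈ range p, (1 + B) ^ i = 0) :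
    ∃ Q : Matrix (Fin n) (Fin n) ℤ, Q * B = (p : Matrix (Fin n) (Fin n) ℤ) := by
  refine ⟨-∑ i ∈ range p, ∑ j ∈ range i, (1 + B) ^ j, ?_⟩
  have h1 : ∀ i : ℕ, (∑ j ∈ range i, (1 + B) ^ j) * B = (1 + B) ^ i - 1 := by
    intro i
    have h2 := geom_sum_mul (1 + B) i
    rw [add_sub_cancel_left] at h2
    exact h2
  rw [neg_mul, Finset.sum_mul, Finset.sum_congr rfl fun i _ => h1 i, Finset.sum_sub_distrib, h]
  simp

/-- a relation `p^M x` with `x ≡ W` modulo `p` gives units close to `1` -/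
theorem near_tors {p : ℕ} [hp : Fact p.Prime] {K : Type} [Field K] [NumberField K] {J : Ideal (𝓞 K)} {n : ℕ}
    {θ : Fin n → (𝓞 K)ˣ} {M : ℕ} {x Y : Fin n → ℤ_[p]} {W : Fin n → ℤ}
    (hrel : Rel p K J θ ((p : ℤ_[p]) ^ M • x)) (hY : ∀ i, x i - (W i : ℤ_[p]) = p * Y i) (N : ℕ) :
    ∃ n' : Fin n → ℤ, (((ev θ W * ev θ n' ^ p) ^ p ^ M : (𝓞 K)ˣ) : 𝓞 K) - 1 ∈ J ^ N := by
  obtain ⟨m, hm1, hm2⟩ := hrel
  have hev : ∀ᶠ k in atTop, ∀ i, ‖((m k i : ℤ) : ℤ_[p]) - ((p : ℤ_[p]) ^ M • x) i‖ < (p : ℝ) ^ (-(M : ℤ)) := by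
    rw [Filter.eventually_all]
    intro i
    have hp0 : (0 : ℝ) < p := by exact_mod_cast hp.out.pos
    have := (Metric.tendsto_nhds.1 (hm1 i)) ((p : ℝ) ^ (-(M : ℤ))) (by positivity)
    filter_upwards [this] with k hk
    rwa [dist_eq_norm] at hk
  obtain ⟨k, hk1, hk2⟩ := (hev.and (hm2 N)).exists
  have hex : ∀ i, ∃ n' : ℤ, m k i = (p : ℤ) ^ M * (W i + p * n') := by
    intro i
    obtain ⟨y, hy⟩ := near_dvd (hk1 i)
    have h1 : ((m k i - (p : ℤ) ^ M * W i : ℤ) : ℤ_[p]) = (p : ℤ_[p]) ^ (M + 1) * (y + Y i) := by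
      rw [Pi.smul_apply, smul_eq_mul] at hy
      have h2 : x i = W i + p * Y i := by linear_combination hY i
      rw [h2] at hy
      push_cast
      linear_combination hy
    obtain ⟨n', hn'⟩ := dvd_int (m := M + 1) ⟨_, h1⟩
    refine ⟨n', ?_⟩
    have : m k i = (p : ℤ) ^ M * W i + (p : ℤ) ^ (M + 1) * n' := by
      linear_combination hn'
    rw [this]
    ring
  choose n' hn' using hex
  refine ⟨n', ?_⟩
  have e : (ev θ W * ev θ n' ^ p) ^ p ^ M = ev θ (m k) := by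
    have h1 : m k = ((p ^ M : ℕ) : ℤ) • (W + (p : ℤ) • n') := by
      funext i
      rw [hn' i]
      simp
    rw [h1, ev_smul, ev_add, ev_smul, zpow_natCast, zpow_natCast]
  rw [e]
  exact hk2

/-- a common denominator for finitely many elements of the saturation -/
theorem common_den {p : ℕ} [hp : Fact p.Prime] {K : Type} [Field K] [NumberField K] {J : Ideal (𝓞 K)} {n t : ℕ}
    {θ : Fin n → (𝓞 K)ˣ} {x : Fin t → Fin n → ℤ_[p]} (hx : ∀ i, x i ∈ RelS (p := p) J θ) :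
    ∃ M : ℕ, ∀ c : Fin t → ℤ, Rel p K J θ ((p : ℤ_[p]) ^ M • ∑ i, (c i : ℤ_[p]) • x i) := by
  choose D hD hR using hx
  have hD0 : ((∏ i, D i : ℕ) : ℤ_[p]) ≠ 0 := by
    have : (∏ i, D i : ℕ) ≠ 0 := Finset.prod_ne_zero_iff.2 fun i _ => hD i
    exact_mod_cast this
  refine ⟨((∏ i, D i : ℕ) : ℤ_[p]).valuation, fun c => ?_⟩
  have h0 : ∀ i, Rel p K J θ (((∏ i, D i : ℕ) : ℤ_[p]) • x i) := by
    intro i
    have h1 : ((∏ i, D i : ℕ) : ℤ_[p]) • x i = ((∏ j ∈ univ.erase i, D j : ℕ) : ℤ_[p]) • ((D i : ℤ_[p]) • x i) := by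
      rw [smul_smul, ← Nat.cast_mul, Finset.prod_erase_mul _ _ (mem_univ i)]
    rw [h1]
    exact rel_smul (hR i) _
  have h1 := PadicInt.unitCoeff_spec hD0
  have h2 : (p : ℤ_[p]) ^ ((∏ i, D i : ℕ) : ℤ_[p]).valuation • ∑ i, (c i : ℤ_[p]) • x i =
      ∑ i, ((((PadicInt.unitCoeff hD0)⁻¹ : ℤ_[p]ˣ) : ℤ_[p]) * (c i : ℤ_[p])) • (((∏ i, D i : ℕ) : ℤ_[p]) • x i) := by
    rw [Finset.smul_sum]
    refine Finset.sum_congr rfl fun i _ => ?_
    rw [smul_smul, smul_smul]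
    congr 1
    have h3 : (p : ℤ_[p]) ^ ((∏ i, D i : ℕ) : ℤ_[p]).valuation =
        (((PadicInt.unitCoeff hD0)⁻¹ : ℤ_[p]ˣ) : ℤ_[p]) * ((∏ i, D i : ℕ) : ℤ_[p]) := by
      calc (p : ℤ_[p]) ^ ((∏ i, D i : ℕ) : ℤ_[p]).valuation = (((PadicInt.unitCoeff hD0)⁻¹ : ℤ_[p]ˣ) : ℤ_[p]) *
            ((PadicInt.unitCoeff hD0 : ℤ_[p]) * (p : ℤ_[p]) ^ ((∏ i, D i : ℕ) : ℤ_[p]).valuation) := by
              rw [← mul_assoc, Units.inv_mul, one_mul]
        _ = _ := congrArg _ h1.symm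
    rw [h3]
    ring
  rw [h2]
  have h4 : ∀ s : Finset (Fin t), Rel p K J θ (∑ i ∈ s,
      ((((PadicInt.unitCoeff hD0)⁻¹ : ℤ_[p]ˣ) : ℤ_[p]) * (c i : ℤ_[p])) • (((∏ i, D i : ℕ) : ℤ_[p]) • x i)) := by
    intro s
    classical
    induction s using Finset.induction_on with
    | empty => rw [Finset.sum_empty]; exact rel_zero J θ
    | insert a s ha ih =>
      rw [Finset.sum_insert ha]
      exact rel_add (rel_smul (h0 a) _) ih
  exact h4 univ

theorem cr1bm : S_LAM → S_CR1BM := by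
  intro hLAM p hp hp2 F L _ _ _ _ _ ζ d hζ hK hd I hI m t hout hmt σ hσ
  obtain ⟨n, θ, h, hh, hθN, hθind, hgen, a, ha, hRel⟩ := hout
  set J := I.map (algebraMap (𝓞 F) (𝓞 L)) with hJ
  -- the norm one subgroup
  let ν : (𝓞 L)ˣ →* Fˣ :=
    Units.map ((Algebra.norm F : L →* F).comp (algebraMap (𝓞 L) L : 𝓞 L →* L))
  have hν : ∀ u : (𝓞 L)ˣ, Algebra.norm F ((u : 𝓞 L) : L) = 1 ↔ u ∈ ν.ker := by
    intro u
    rw [MonoidHom.mem_ker, Units.ext_iff]
    rfl
  have hevN : ∀ m : Fin n → ℤ, ev θ m ∈ ν.ker := fun m =>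
    Subgroup.prod_mem _ fun i _ => Subgroup.zpow_mem _ ((hν _).1 (hθN i)) _
  have hgN : ∀ u : (𝓞 L)ˣ, Algebra.norm F ((u : 𝓞 L) : L) = 1 → Algebra.norm F (((gU σ u : (𝓞 L)ˣ) : 𝓞 L) : L) = 1 := by
    intro u hu
    rw [gU_coe, norm_conj hK.deg hσ, hu]
  -- the matrix of `σ`
  choose A hA using fun i => hgen (gU σ (θ i)) (hgN _ (hθN i))
  have hA' : ∀ i, gU σ (θ i) ^ h = ev θ (A i) ^ h := hA
  have hstep : ∀ m : Fin n → ℤ, gU σ (ev θ m) ^ h = ev θ (Matrix.vecMul m (Matrix.of A)) ^ h := by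
    intro m
    rw [← ev_vec, ev_map]
    unfold ev
    rw [← Finset.prod_pow, ← Finset.prod_pow]
    refine Finset.prod_congr rfl fun i _ => ?_
    have := hA i
    rw [← zpow_natCast (gU σ (θ i) ^ m i), ← zpow_natCast (_ ^ m i), zpow_comm, zpow_comm _ (m i), zpow_natCast,
      zpow_natCast, this]
    rfl
  have hpow : ∀ (k : ℕ) (i : Fin n), ((gU σ)^[k] (θ i)) ^ h = ev θ (((Matrix.of A) ^ k) i) ^ h := by
    intro k i
    induction k with
    | zero =>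
      rw [Function.iterate_zero, id, pow_zero]
      congr 1
      unfold ev
      rw [Finset.prod_eq_single i]
      · rw [Matrix.one_apply_eq, zpow_one]
      · intro j _ hj
        rw [Matrix.one_apply_ne (Ne.symm hj), zpow_zero]
      · intro h; exact absurd (mem_univ i) h
    | succ k ih =>
      rw [Function.iterate_succ_apply', ← map_pow, ih, map_pow, hstep, pow_succ]
      rfl
  have hsum0 : ∑ k ∈ range p, (Matrix.of A) ^ k = 0 := by
    ext i j
    have h1 : ∏ k ∈ range p, (gU σ)^[k] (θ i) = 1 := by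
      apply unit_ext
      rw [coe_prod', Finset.prod_congr rfl fun k _ => gU_iter σ k (θ i), ← norm_eq hK.deg hσ, hθN i, map_one]
      simp
    have h2 : ev θ (∑ k ∈ range p, ((Matrix.of A) ^ k) i) ^ h = ev θ 0 ^ h := by
      rw [ev_sum, ← Finset.prod_pow, ← Finset.prod_congr rfl fun k _ => hpow k i, Finset.prod_pow, h1]
      simp [ev]
    have h3 := ev_inj hθind hh h2
    rw [Matrix.sum_apply]
    have h4 := congrFun h3 j
    rw [Finset.sum_apply] at h4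
    exact h4
  set B : Matrix (Fin n) (Fin n) ℤ := Matrix.of A - 1 with hB
  have hsumB : ∑ i ∈ range p, (1 + B) ^ i = 0 := by
    have : (1 : Matrix (Fin n) (Fin n) ℤ) + B = Matrix.of A := by rw [hB]; abel
    rw [this, hsum0]
  -- the saturated module
  have hstab : ∀ x ∈ RelS (p := p) J θ, Matrix.vecMul x (B.map (Int.cast : ℤ → ℤ_[p])) ∈ RelS (p := p) J θ := by
    intro x hx
    have hx' := hx
    obtain ⟨c, hc, h1⟩ := hx
    have h2 := rel_pow (A := Matrix.of A) hA' (rel_conj σ I h1)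
    have h3 : Matrix.vecMul x ((Matrix.of A).map (Int.cast : ℤ → ℤ_[p])) ∈ RelS (p := p) J θ := by
      refine ⟨h * c, mul_ne_zero hh.ne' hc, ?_⟩
      rw [Matrix.smul_vecMul, smul_smul] at h2
      rw [Nat.cast_mul]
      exact h2
    have h4 : B.map (Int.cast : ℤ → ℤ_[p]) = (Matrix.of A).map (Int.cast : ℤ → ℤ_[p]) - 1 := by
      ext i j
      rw [hB]
      by_cases hij : i = j
      · subst hij; simp
      · simp [Matrix.one_apply_ne hij]
    rw [h4, Matrix.vecMul_sub, Matrix.vecMul_one]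
    exact Submodule.sub_mem _ h3 hx'
  have hsat : ∀ x : Fin n → ℤ_[p], (p : ℤ_[p]) • x ∈ RelS (p := p) J θ → x ∈ RelS (p := p) J θ := by
    rintro x ⟨c, hc, h1⟩
    refine ⟨c * p, mul_ne_zero hc hp.out.ne_zero, ?_⟩
    rw [smul_smul] at h1
    rw [Nat.cast_mul]
    exact h1
  have hmem : ∀ i, a i ∈ RelS (p := p) J θ := fun i =>
    ⟨1, one_ne_zero, by rw [Nat.cast_one, one_smul]; exact hRel i⟩
  obtain ⟨x, hxR, hxB⟩ := hLAM p n m t B hsumB (RelS (p := p) J θ) hstab hsat ⟨a, ha, hmem⟩ hmt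
  obtain ⟨Q, hQ⟩ := exists_quot hsumB
  choose W hW using fun j i => exists_rep (x j i)
  choose Y hY using hW
  -- combinations
  have hprod : ∀ c : Fin t → ℤ, ∏ j, ev θ (W j) ^ c j = ev θ (∑ j, c j • W j) := by
    intro c
    rw [ev_sum]
    exact Finset.prod_congr rfl fun j _ => (ev_smul θ (c j) (W j)).symm
  have hcY : ∀ (c : Fin t → ℤ) (i : Fin n), (∑ j, (c j : ℤ_[p]) • x j) i - (((∑ j, c j • W j) i : ℤ) : ℤ_[p]) =
      p * (∑ j, (c j : ℤ_[p]) • Y j) i := by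
    intro c i
    rw [Finset.sum_apply, Finset.sum_apply, Finset.sum_apply, Int.cast_sum, ← Finset.sum_sub_distrib, Finset.mul_sum]
    refine Finset.sum_congr rfl fun j _ => ?_
    rw [Pi.smul_apply, Pi.smul_apply, Pi.smul_apply, smul_eq_mul, smul_eq_mul, smul_eq_mul, Int.cast_mul]
    linear_combination (c j : ℤ_[p]) * hY j i
  refine ⟨fun j => ev θ (W j), fun j => (hν _).2 (hevN (W j)), ?_, ?_⟩
  · -- independence
    intro c hcp η j hη heq
    rw [hprod c] at heq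
    set V : Fin n → ℤ := ∑ j, c j • W j with hV
    obtain ⟨b, hb⟩ := hgen η hη
    have hb' : η ^ h = ev θ b ^ h := hb
    have h1 : (ev θ V * η) ^ p = (gU σ η) ^ p := by
      apply unit_ext
      rw [coe_pow', coe_pow', coe_mul', heq, gU_coe, mul_pow, ← pow_mul, mul_comm j p, pow_mul, ← map_pow,
        hζ.pow_eq_one, map_one, one_pow, one_mul]
    have h2 : ev θ (V + b) ^ (h * p) = ev θ (Matrix.vecMul b (Matrix.of A)) ^ (h * p) := by
      rw [pow_mul, pow_mul, ← hstep b, ev_add, mul_pow, ← hb', ← map_pow, ← hb', map_pow, ← mul_pow, ← pow_mul,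
        ← pow_mul, mul_comm h p, pow_mul, pow_mul, h1]
    have h3 := ev_inj hθind (Nat.mul_pos hh hp.out.pos) h2
    apply hxB c hcp ((fun i => (b i : ℤ_[p])) +
      Matrix.vecMul (∑ j, (c j : ℤ_[p]) • Y j) (Q.map (Int.cast : ℤ → ℤ_[p])))
    have h5 : Matrix.vecMul (fun i => (b i : ℤ_[p])) (B.map (Int.cast : ℤ → ℤ_[p])) = fun i => ((V i : ℤ) : ℤ_[p]) := by
      have h6 : Matrix.vecMul b B = V := by
        rw [hB, Matrix.vecMul_sub, Matrix.vecMul_one, ← h3]; abel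
      funext i
      rw [← h6]
      show ∑ j, (b j : ℤ_[p]) * (B j i : ℤ_[p]) = ((∑ j, b j * B j i : ℤ) : ℤ_[p])
      push_cast
      rfl
    have h6 : (Q.map (Int.cast : ℤ → ℤ_[p])) * (B.map (Int.cast : ℤ → ℤ_[p])) =
        (p : Matrix (Fin n) (Fin n) ℤ_[p]) := by
      have h7 := congrArg (fun M : Matrix (Fin n) (Fin n) ℤ => M.map (Int.castRingHom ℤ_[p])) hQ
      simp only [Matrix.map_mul] at h7
      have h8 : (p : Matrix (Fin n) (Fin n) ℤ).map (Int.castRingHom ℤ_[p]) = (p : Matrix (Fin n) (Fin n) ℤ_[p]) := by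
        exact map_natCast (Int.castRingHom ℤ_[p]).mapMatrix p
      rw [h8] at h7
      exact h7
    rw [Matrix.add_vecMul, Matrix.vecMul_vecMul, h6, h5]
    funext i
    have h9 : Matrix.vecMul (∑ j, (c j : ℤ_[p]) • Y j) (p : Matrix (Fin n) (Fin n) ℤ_[p]) =
        (p : ℤ_[p]) • ∑ j, (c j : ℤ_[p]) • Y j := by
      have : (p : Matrix (Fin n) (Fin n) ℤ_[p]) = (p : ℤ_[p]) • (1 : Matrix (Fin n) (Fin n) ℤ_[p]) := by
        rw [Matrix.smul_one_eq_diagonal]
        rfl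
      rw [this, Matrix.vecMul_smul, Matrix.vecMul_one]
    rw [h9, Pi.add_apply, Pi.smul_apply, smul_eq_mul]
    linear_combination hcY c i
  · -- almost torsion
    obtain ⟨M, hM⟩ := common_den hxR
    refine ⟨M, fun c N => ?_⟩
    obtain ⟨n', hn'⟩ := near_tors (hM c) (hcY c) N
    refine ⟨ev θ n', (hν _).2 (hevN n'), ?_⟩
    rw [hprod c]
    exact hn'

end Pool.Agent.Q224.LK
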