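import Pool.Agent.Q224.LK.CR1

/-!
Project LK (helper7), job CR2: the class of the unit.
-/

set_option autoImplicit false

namespace Pool.Agent.Q224.LK

open NumberField IsDedekindDomain Filter Topology Finset
open Pool.Agent.Q7.LK

section

variable {p : ℕ} [hp : Fact p.Prime] {F L : Type} [Field F] [NumberField F] [Field L] [NumberField L]
  [Algebra F L] {d : F}

theorem adjoin_top (hK : Kum p F L d) (hd : ¬ IsPow p d) {ρ : L} (hρ : ρ ^ p = algebraMap F L d) :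
    IntermediateField.adjoin F {ρ} = ⊤ := by
  have h2 := Module.finrank_mul_finrank F (IntermediateField.adjoin F {ρ}) L
  rw [hK.deg] at h2
  have h3 : Module.finrank F (IntermediateField.adjoin F {ρ}) ∣ p := Dvd.intro _ h2
  rcases (Nat.dvd_prime hp.out).1 h3 with h4 | h4
  · exfalso
    rw [IntermediateField.finrank_eq_one_iff] at h4
    have h5 : ρ ∈ IntermediateField.adjoin F {ρ} := IntermediateField.mem_adjoin_simple_self F ρ
    rw [h4, IntermediateField.mem_bot] at h5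
    obtain ⟨y, hy⟩ := h5
    apply hd
    refine ⟨y, (algebraMap F L).injective ?_⟩
    rw [map_pow, hy, hρ]
  · rw [h4] at h2
    have h5 : Module.finrank (IntermediateField.adjoin F {ρ}) L = 1 := by
      have := hp.out.pos
      exact Nat.eq_of_mul_eq_mul_left this (by rw [h2, mul_one])
    exact IntermediateField.finrank_eq_one_iff_eq_top.1 h5

theorem galois_cyclic {ζ : F} (hζ : IsPrimitiveRoot ζ p) (hK : Kum p F L d) (hd : ¬ IsPow p d) :
    IsGalois F L ∧ IsCyclic (L ≃ₐ[F] L) := by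
  obtain ⟨ρ, hρ⟩ := hK.root
  have h1 : (primitiveRoots (Module.finrank F L) F).Nonempty := by
    rw [hK.deg]
    exact ⟨ζ, (mem_primitiveRoots hp.out.pos).2 hζ⟩
  have h2 : ∃ α : L, α ^ (Module.finrank F L) ∈ Set.range (algebraMap F L) ∧ IntermediateField.adjoin F {α} = ⊤ := by
    refine ⟨ρ, ?_, adjoin_top hK hd hρ⟩
    rw [hK.deg]
    exact ⟨d, hρ.symm⟩
  exact ((isCyclic_tfae F L h1).out 2 0).1 h2

theorem exists_aut {ζ : F} (hζ : IsPrimitiveRoot ζ p) (hK : Kum p F L d) (hd : ¬ IsPow p d) :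
    ∃ σ : L ≃ₐ[F] L, σ ≠ 1 := by
  have := (galois_cyclic hζ hK hd).1
  have h1 : Nat.card (L ≃ₐ[F] L) = p := by rw [IsGalois.card_aut_eq_finrank, hK.deg]
  by_contra hcon
  push Not at hcon
  have h2 : Nat.card (L ≃ₐ[F] L) = 1 := by
    rw [Nat.card_eq_one_iff_unique]
    exact ⟨⟨fun a b => by rw [hcon a, hcon b]⟩, ⟨1⟩⟩
  rw [h1] at h2
  exact hp.out.one_lt.ne' h2

/-- Hilbert's theorem 90 -/
theorem hilb90 {ζ : F} (hζ : IsPrimitiveRoot ζ p) (hK : Kum p F L d) (hd : ¬ IsPow p d) {σ : L ≃ₐ[F] L}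
    (hσ : σ ≠ 1) {w : L} (hw : Algebra.norm F w = 1) : ∃ y : L, y ≠ 0 ∧ w * y = σ y := by
  have h1 := (galois_cyclic hζ hK hd).1
  have h2 := (galois_cyclic hζ hK hd).2
  have hw0 : w ≠ 0 := by rintro rfl; rw [Algebra.norm_zero] at hw; exact zero_ne_one hw
  obtain ⟨y, hy⟩ := groupCohomology.exists_div_of_norm_eq_one (gen hK.deg hσ) (x := w⁻¹)
    (by rw [Algebra.norm_inv, hw, inv_one])
  have hσy : σ (y : L) ≠ 0 := (map_ne_zero σ).2 y.ne_zero
  refine ⟨y, y.ne_zero, ?_⟩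
  rw [div_eq_iff hσy] at hy
  have h3 : w * (y : L) = w * (w⁻¹ * σ (y : L)) := congrArg (fun t => w * t) hy
  rw [← mul_assoc, mul_inv_cancel₀ hw0, one_mul] at h3
  exact h3

/-- a number which is, up to a unit, mapped to itself, of norm `1`, is a unit -/
theorem unit_of_norm (h : Module.finrank F L = p) {σ : L ≃ₐ[F] L} (hσ : σ ≠ 1) (u : (𝓞 L)ˣ) {y : L}
    (hy : σ y = ((u : 𝓞 L) : L) * y) (hn : Algebra.norm F y = 1) : ∃ η : (𝓞 L)ˣ, ((η : 𝓞 L) : L) = y := by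
  have h1 : ∀ k : ℕ, ∃ v : (𝓞 L)ˣ, (σ ^ k) y = ((v : 𝓞 L) : L) * y := by
    intro k
    induction k with
    | zero => exact ⟨1, by simp⟩
    | succ k ih =>
      obtain ⟨v, hv⟩ := ih
      refine ⟨gU σ v * u, ?_⟩
      rw [pow_succ', AlgEquiv.mul_apply, hv, map_mul, hy, coe_mul', gU_coe, mul_assoc]
  choose v hv using h1
  have h2 := norm_eq h hσ y
  rw [hn, map_one, Finset.prod_congr rfl fun k _ => hv k, Finset.prod_mul_distrib, Finset.prod_const,
    Finset.card_range, ← coe_prod'] at h2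
  set U := ∏ k ∈ range p, v k with hU
  have hy0 : y ≠ 0 := by rintro rfl; rw [Algebra.norm_zero] at hn; exact zero_ne_one hn
  have hp0 := hp.out.pos
  have hU1 : ((U : 𝓞 L) : L) * (((U⁻¹ : (𝓞 L)ˣ) : 𝓞 L) : L) = 1 := by
    rw [← coe_mul', mul_inv_cancel]; simp
  have h3 : y ^ p = (((U⁻¹ : (𝓞 L)ˣ) : 𝓞 L) : L) := by
    have h4 : ((U : 𝓞 L) : L) ≠ 0 := left_ne_zero_of_mul_eq_one hU1
    apply mul_left_cancel₀ h4
    rw [← h2, hU1]
  have h4 : (y⁻¹) ^ p = ((U : 𝓞 L) : L) := by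
    rw [inv_pow, h3]
    exact inv_eq_of_mul_eq_one_left hU1
  have i1 : IsIntegral ℤ y := by
    apply IsIntegral.of_pow hp0
    rw [h3]
    exact RingOfIntegers.isIntegral_coe _
  have i2 : IsIntegral ℤ y⁻¹ := by
    apply IsIntegral.of_pow hp0
    rw [h4]
    exact RingOfIntegers.isIntegral_coe _
  let a : 𝓞 L := ⟨y, i1⟩
  let b : 𝓞 L := ⟨y⁻¹, i2⟩
  have hab : a * b = 1 := by
    apply RingOfIntegers.ext
    have : ((a * b : 𝓞 L) : L) = y * y⁻¹ := map_mul (algebraMap (𝓞 L) L) _ _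
    rw [this, mul_inv_cancel₀ hy0]
    simp
  exact ⟨Units.mkOfMulEqOne a b hab, rfl⟩

end

theorem cr2 : S_CR1 → S_CR2LA → S_CR2LB → S_CR2T → S_CR2 := by
  intro hCR1 hLA hLB hT p hp hp2 F L _ _ _ _ _ ζ d hζ hK hd s hs hL
  obtain ⟨σ, hσ⟩ := exists_aut hζ hK hd
  obtain ⟨w, hw1, hw2, M, hw3⟩ := hCR1 p hp2 F L ζ d hζ hK hd (Ideal.span {(p : 𝓞 F)})
    (Ideal.mem_span_singleton_self _) s hs hL σ hσ
  obtain ⟨ρ, hρ0, hρ, ⟨b, hb, hσρ⟩, hρn⟩ := root_data hp2 hζ hK hd hσ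
  obtain ⟨y, hy0, hy⟩ := hilb90 hζ hK hd hσ hw1
  have hd0 := kum_ne hd
  have ha0 : Algebra.norm F y ≠ 0 := Algebra.norm_ne_zero_iff.2 hy0
  have hmem : ∀ v : HeightOneSpectrum (𝓞 F), Dp p v → Ideal.span {(p : 𝓞 F)} ≤ v.asIdeal := by
    intro v hv
    rw [Ideal.span_singleton_le_iff_mem]
    exact hv
  refine ⟨Algebra.norm F y, ⟨ha0, ?_, ?_, ?_⟩, ?_⟩
  · exact fun v hv => (hT p hp2 F L ζ d hζ hK hd σ hσ v hv w y hy0 hy).1
  · exact fun v hv => (hT p hp2 F L ζ d hζ hK hd σ hσ v hv w y hy0 hy).2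
  · intro v hv
    refine ⟨ha0, ?_, ?_⟩
    · intro h
      exact hLB p hp2 F L ζ d hζ hK hd σ hσ _ (Ideal.mem_span_singleton_self _) v (hmem v hv) w M hw3 y hy0 hy h
    · intro h
      exact hLA p hp2 F L ζ d hζ hK hd σ hσ _ (Ideal.mem_span_singleton_self _) v (hmem v hv) w M hw3 y hy0 hy h
  · rintro j ⟨t, ht⟩
    have ht0 : t ≠ 0 := by
      rintro rfl
      rw [zero_pow hp.out.ne_zero] at ht
      exact mul_ne_zero ha0 (pow_ne_zero _ hd0) ht
    have htL : algebraMap F L t ≠ 0 := (map_ne_zero _).2 ht0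
    -- the number of norm `1`
    have hn : Algebra.norm F (y * ρ ^ j * (algebraMap F L t)⁻¹) = 1 := by
      rw [map_mul, map_mul, map_pow, hρn, Algebra.norm_inv, Algebra.norm_algebraMap, hK.deg, ← ht,
        mul_inv_cancel₀]
      exact mul_ne_zero ha0 (pow_ne_zero _ hd0)
    -- the root of unity as a unit
    have hzi : IsIntegral ℤ (algebraMap F L (ζ ^ b)) := by
      apply IsIntegral.of_pow hp.out.pos
      rw [← map_pow, hb.pow_eq_one, map_one]
      exact isIntegral_one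
    have hz1 : (algebraMap F L (ζ ^ b)) * (algebraMap F L (ζ ^ b)) ^ (p - 1) = 1 := by
      rw [← pow_succ', Nat.sub_add_cancel hp.out.one_le, ← map_pow, hb.pow_eq_one, map_one]
    let z0 : 𝓞 L := ⟨algebraMap F L (ζ ^ b), hzi⟩
    have hz2 : z0 * z0 ^ (p - 1) = 1 := by
      apply RingOfIntegers.ext
      have e1 : ((z0 * z0 ^ (p - 1) : 𝓞 L) : L) = (z0 : L) * (z0 : L) ^ (p - 1) := by
        rw [← map_pow (algebraMap (𝓞 L) L), ← map_mul (algebraMap (𝓞 L) L)]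
      have e2 : ((1 : 𝓞 L) : L) = 1 := map_one (algebraMap (𝓞 L) L)
      rw [e1, e2]
      exact hz1
    let zu : (𝓞 L)ˣ := Units.mkOfMulEqOne z0 (z0 ^ (p - 1)) hz2
    have hzu : ((zu : 𝓞 L) : L) = algebraMap F L (ζ ^ b) := rfl
    have hσ' : σ (y * ρ ^ j * (algebraMap F L t)⁻¹) =
        (((w * zu ^ j : (𝓞 L)ˣ) : 𝓞 L) : L) * (y * ρ ^ j * (algebraMap F L t)⁻¹) := by
      rw [map_mul, map_mul, map_pow, map_inv₀, AlgEquiv.commutes, hσρ, ← hy, coe_mul', coe_pow', hzu]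
      ring
    obtain ⟨η, hη⟩ := unit_of_norm hK.deg hσ _ hσ' hn
    rw [← hη] at hσ' hn
    apply hw2 η (b * j * (p - 1)) hn
    rw [hσ', coe_mul', coe_pow', hzu]
    have h1 : algebraMap F L ζ ^ (b * j * (p - 1)) * algebraMap F L (ζ ^ b) ^ j = 1 := by
      rw [← map_pow, ← map_pow, ← map_mul, ← pow_mul, ← pow_add]
      have : b * j * (p - 1) + b * j = p * (b * j) := by
        obtain ⟨q, hq⟩ := Nat.exists_eq_add_of_le hp.out.one_le
        rw [hq, Nat.add_sub_cancel_left]; ring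
      rw [this, pow_mul, hζ.pow_eq_one, one_pow, map_one]
    linear_combination (- ((w : 𝓞 L) : L) * ((η : 𝓞 L) : L)) * h1

end Pool.Agent.Q224.LK
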