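import Pool.Agent.Q22.LK.Cr2i
import Pool.Agent.Q7.LK.Stm3

/-!
Project LK (helper7), job CR2M: the classes of several units of relative norm `1`.
-/

set_option autoImplicit false

namespace Pool.Agent.Q224.LK

open NumberField IsDedekindDomain Filter Topology Finset
open Pool.Agent.Q7.LK Pool.Agent.Q22.LK

section one

variable {p : ℕ} [Fact p.Prime] {F L : Type} [Field F] [NumberField F] [Field L] [NumberField L] [Algebra F L]
  {ζ d : F}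

/-- the norm of `y` is not, up to a power of `d`, a `p`-th power -/
theorem not_pow_norm (hp2 : p ≠ 2) (hζ : IsPrimitiveRoot ζ p) (hK : Kum p F L d) (hd : ¬ IsPow p d)
    {σ : L ≃ₐ[F] L} (hσ : σ ≠ 1) {w : (𝓞 L)ˣ} (hw1 : Algebra.norm F ((w : 𝓞 L) : L) = 1)
    (hw2 : ∀ (η : (𝓞 L)ˣ) (j : ℕ), Algebra.norm F ((η : 𝓞 L) : L) = 1 →
      ((w : 𝓞 L) : L) * ((η : 𝓞 L) : L) ≠ (algebraMap F L ζ) ^ j * σ ((η : 𝓞 L) : L))
    {y : L} (hy0 : y ≠ 0) (hy : ((w : 𝓞 L) : L) * y = σ y) (j : ℕ) : ¬ IsPow p (Algebra.norm F y * d ^ j) := by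
  have hp : p.Prime := Fact.out
  obtain ⟨hfr, ρ, hρ⟩ := hK
  have hd0 : d ≠ 0 := by
    rintro rfl
    exact hd ⟨0, (zero_pow hp.ne_zero).symm⟩
  have hρ0 : ρ ≠ 0 := by
    rintro rfl
    rw [zero_pow hp.ne_zero] at hρ
    exact hd0 ((map_eq_zero_iff _ (algebraMap F L).injective).1 hρ.symm)
  have hN0 : Algebra.norm F y ≠ 0 := by
    rw [ne_eq, Algebra.norm_eq_zero_iff]; exact hy0
  intro hj
  obtain ⟨t, ht⟩ := hj
  have ht0 : t ≠ 0 := by
    rintro rfl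
    rw [zero_pow hp.ne_zero] at ht
    exact mul_ne_zero hN0 (pow_ne_zero _ hd0) ht
  have htL : algebraMap F L t ≠ 0 := by
    rw [ne_eq, map_eq_zero_iff _ (algebraMap F L).injective]; exact ht0
  obtain ⟨k, hk⟩ := aut_root hp hζ hρ hρ0 σ
  set z : L := algebraMap F L ζ with hz
  have hzp : z ^ p = 1 := by rw [hz, ← map_pow, hζ.pow_eq_one, map_one]
  have hz0 : z ≠ 0 := by
    intro h0
    rw [h0, zero_pow hp.ne_zero] at hzp
    exact zero_ne_one hzp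
  have hzi : IsIntegral ℤ z := by
    refine IsIntegral.of_pow hp.pos ?_
    rw [hzp]; exact isIntegral_one
  have hzi' : IsIntegral ℤ z⁻¹ := by
    refine IsIntegral.of_pow hp.pos ?_
    rw [inv_pow, hzp, inv_one]; exact isIntegral_one
  set y' : L := y * ρ ^ j / algebraMap F L t with hy'
  have hy'0 : y' ≠ 0 := div_ne_zero (mul_ne_zero hy0 (pow_ne_zero _ hρ0)) htL
  have hn : Algebra.norm F y' = 1 := by
    have h1 : y' * algebraMap F L t = y * ρ ^ j := by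
      rw [hy', div_mul_cancel₀ _ htL]
    have h2 := congrArg (Algebra.norm F) h1
    rw [map_mul, map_mul, map_pow, norm_root hp hp2 hfr hρ hd, Algebra.norm_algebraMap, hfr, ht] at h2
    exact (mul_eq_right₀ (pow_ne_zero _ ht0)).1 h2
  have hwi : IsIntegral ℤ ((w : 𝓞 L) : L) := RingOfIntegers.isIntegral_coe _
  have hwi' : IsIntegral ℤ (((w : 𝓞 L) : L))⁻¹ := by
    have h1 : (((w⁻¹ : (𝓞 L)ˣ) : 𝓞 L) : L) = (((w : 𝓞 L) : L))⁻¹ := by
      rw [eq_comm, inv_eq_of_mul_eq_one_right]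
      have h2 : ((w : 𝓞 L)) * ((w⁻¹ : (𝓞 L)ˣ) : 𝓞 L) = 1 := w.mul_inv
      have h3 := congrArg (algebraMap (𝓞 L) L) h2
      rwa [map_mul, map_one] at h3
    rw [← h1]
    exact RingOfIntegers.isIntegral_coe _
  have hσt : σ (algebraMap F L t) = algebraMap F L t := σ.commutes t
  have hu : σ y' = (((w : 𝓞 L) : L) * z ^ (k * j)) * y' := by
    rw [hy', map_div₀, map_mul, map_pow, hσt, ← hy, hk, mul_pow, ← pow_mul]
    field_simp
  obtain ⟨η, hη⟩ := unit_of_norm_one hp hζ hfr hρ hd hσ hy'0 hn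
    (u := ((w : 𝓞 L) : L) * z ^ (k * j)) (hwi.mul (hzi.pow _))
    (by rw [mul_inv, ← inv_pow]; exact hwi'.mul (hzi'.pow _)) hu
  refine hw2 η ((p - 1) * (k * j)) (by rw [hη]; exact hn) ?_
  rw [hη, hu]
  have h1 : z ^ ((p - 1) * (k * j)) * z ^ (k * j) = 1 := by
    rw [← pow_add]
    have : (p - 1) * (k * j) + k * j = p * (k * j) := by
      obtain ⟨q, hq⟩ : ∃ q, p = q + 1 := ⟨p - 1, by have := hp.pos; omega⟩
      rw [hq]; simp; ring
    rw [this, pow_mul, hzp, one_pow]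
  calc ((w : 𝓞 L) : L) * y' = (z ^ ((p - 1) * (k * j)) * z ^ (k * j)) * (((w : 𝓞 L) : L) * y') := by
        rw [h1, one_mul]
    _ = _ := by ring

/-- the local conditions for the norm of `y` -/
theorem cond_norm (hLA : S_CR2LA) (hLB : S_CR2LB) (hT : S_CR2T) (hU : S_CR2U)
    (hp2 : p ≠ 2) (hζ : IsPrimitiveRoot ζ p) (hK : Kum p F L d) (hd : ¬ IsPow p d)
    {I : Ideal (𝓞 F)} (hpI : (p : 𝓞 F) ∈ I)
    {σ : L ≃ₐ[F] L} (hσ : σ ≠ 1) {w : (𝓞 L)ˣ} {M : ℕ}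
    (hM : ∀ N : ℕ, ∃ η : (𝓞 L)ˣ, Algebra.norm F ((η : 𝓞 L) : L) = 1 ∧
      (((w * η ^ p) ^ p ^ M : (𝓞 L)ˣ) : 𝓞 L) - 1 ∈ I.map (algebraMap (𝓞 F) (𝓞 L)) ^ N)
    {y : L} (hy0 : y ≠ 0) (hy : ((w : 𝓞 L) : L) * y = σ y) : Cond p (AI p I) d (Algebra.norm F y) := by
  have hN0 : Algebra.norm F y ≠ 0 := by
    rw [ne_eq, Algebra.norm_eq_zero_iff]; exact hy0
  refine ⟨hN0, ?_, ?_, ?_⟩
  · intro v hv hv0
    exact (hT p hp2 F L ζ d hζ hK hd σ hσ v hv w y hy0 hy).1 hv0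
  · intro v hv hv0
    exact (hT p hp2 F L ζ d hζ hK hd σ hσ v hv w y hy0 hy).2 hv0
  · intro v hv
    refine ⟨?_, ?_⟩
    · intro hI
      exact ⟨hN0, fun h => hLB p hp2 F L ζ d hζ hK hd σ hσ I hpI v hI w M hM y hy0 hy h,
        fun h => hLA p hp2 F L ζ d hζ hK hd σ hσ I hpI v hI w M hM y hy0 hy h⟩
    · intro hI
      exact hU p hp2 F L ζ d hζ hK hd σ hσ v w y hy0 hy

end one

theorem cr2m : S_CR2LA → S_CR2LB → S_CR2T → S_CR2U → S_CR2M := by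
  intro hLA hLB hT hU p _ hp2 F L _ _ _ _ _ ζ d hζ hK hd I hpI t σ hσ hW
  have hp : p.Prime := Fact.out
  obtain ⟨w, hw1, hw2, M, hM⟩ := hW
  have h90 : ∀ i, ∃ y : L, y ≠ 0 ∧ (((w i : (𝓞 L)ˣ) : 𝓞 L) : L) * y = σ y := by
    intro i
    obtain ⟨hfr, ρ, hρ⟩ := hK
    obtain ⟨y, hy0, hy⟩ := hilbert90 hp hζ hfr hρ hd hσ (hw1 i)
    exact ⟨y, hy0, hy⟩
  choose y hy0 hy using h90
  let nz : L →*₀ F := { (Algebra.norm F : L →* F) with map_zero' := Algebra.norm_zero }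
  have hnz : ∀ (x : L) (n : ℤ), Algebra.norm F (x ^ n) = Algebra.norm F x ^ n := fun x n => map_zpow₀ nz x n
  have hnd : ∀ x x' : L, Algebra.norm F (x / x') = Algebra.norm F x / Algebra.norm F x' := fun x x' => map_div₀ nz x x'
  -- the coercion of units
  let κ : (𝓞 L)ˣ →* Lˣ := Units.map (algebraMap (𝓞 L) L : 𝓞 L →* L)
  have hκ : ∀ u : (𝓞 L)ˣ, ((κ u : Lˣ) : L) = ((u : 𝓞 L) : L) := fun u => rfl
  have hκprod : ∀ C : Fin t → ℤ, (((∏ i, w i ^ C i : (𝓞 L)ˣ) : 𝓞 L) : L) = ∏ i, (((w i : (𝓞 L)ˣ) : 𝓞 L) : L) ^ C i := by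
    intro C
    rw [← hκ, map_prod, Units.coe_prod]
    refine Finset.prod_congr rfl fun i _ => ?_
    rw [map_zpow, Units.val_zpow_eq_zpow_val, hκ]
  have hyC0 : ∀ C : Fin t → ℤ, ∏ i, y i ^ C i ≠ 0 := fun C =>
    Finset.prod_ne_zero_iff.2 fun i _ => zpow_ne_zero _ (hy0 i)
  have hyC : ∀ C : Fin t → ℤ, (((∏ i, w i ^ C i : (𝓞 L)ˣ) : 𝓞 L) : L) * ∏ i, y i ^ C i = σ (∏ i, y i ^ C i) := by
    intro C
    rw [hκprod, ← Finset.prod_mul_distrib, map_prod]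
    refine Finset.prod_congr rfl fun i _ => ?_
    rw [map_zpow₀, ← hy i, mul_zpow]
  have hwC1 : ∀ C : Fin t → ℤ, Algebra.norm F (((∏ i, w i ^ C i : (𝓞 L)ˣ) : 𝓞 L) : L) = 1 := by
    intro C
    rw [hκprod, map_prod]
    refine Finset.prod_eq_one fun i _ => ?_
    rw [hnz, hw1 i, one_zpow]
  have hcond : ∀ C : Fin t → ℤ, Cond p (AI p I) d (Algebra.norm F (∏ i, y i ^ C i)) := fun C =>
    cond_norm hLA hLB hT hU hp2 hζ hK hd hpI hσ (hM C) (hyC0 C) (hyC C)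
  have hnp : ∀ C : Fin t → ℤ, (∃ i, ¬ (p : ℤ) ∣ C i) → ∀ j : ℕ, ¬ IsPow p (Algebra.norm F (∏ i, y i ^ C i) * d ^ j) :=
    fun C hC j => not_pow_norm hp2 hζ hK hd hσ (hwC1 C) (hw2 C hC) (hyC0 C) (hyC C) j
  -- the nonzero classes
  have hcard : Fintype.card {c : Fin t → ZMod p // c ≠ 0} = p ^ t - 1 := by
    rw [Fintype.card_subtype_compl, Fintype.card_subtype_eq, Fintype.card_fun, ZMod.card, Fintype.card_fin]
  let e := (Fintype.equivFinOfCardEq hcard).symm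
  let v : (Fin t → ZMod p) → Fin t → ℤ := fun c i => ((c i).val : ℤ)
  have hdvd : ∀ c c' : Fin t → ZMod p, c ≠ c' → ∃ i, ¬ (p : ℤ) ∣ v c i - v c' i := by
    intro c c' hne
    by_contra hcon
    push Not at hcon
    apply hne
    funext i
    have h1 := (ZMod.intCast_zmod_eq_zero_iff_dvd (v c i - v c' i) p).2 (hcon i)
    simp only [v] at h1
    push_cast at h1
    rw [ZMod.natCast_zmod_val, ZMod.natCast_zmod_val] at h1
    exact sub_eq_zero.1 h1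
  refine ⟨fun i => Algebra.norm F (∏ l, y l ^ v (e i).1 l), fun i => ⟨hcond _, hnp _ ?_⟩, ?_⟩
  · obtain ⟨l, hl⟩ := hdvd (e i).1 0 (e i).2
    refine ⟨l, ?_⟩
    simpa [v] using hl
  · intro i i' hne j
    have h1 : Algebra.norm F (∏ l, y l ^ v (e i).1 l) / Algebra.norm F (∏ l, y l ^ v (e i').1 l) =
        Algebra.norm F (∏ l, y l ^ (fun l => v (e i).1 l - v (e i').1 l) l) := by
      rw [← hnd, ← Finset.prod_div_distrib]
      congr 1
      refine Finset.prod_congr rfl fun l _ => ?_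
      rw [zpow_sub₀ (hy0 l)]
    show ¬ IsPow p (Algebra.norm F (∏ l, y l ^ v (e i).1 l) / Algebra.norm F (∏ l, y l ^ v (e i').1 l) * d ^ j)
    rw [h1]
    refine hnp _ (hdvd _ _ ?_) j
    intro h2
    exact hne (e.injective (Subtype.ext h2))

end Pool.Agent.Q224.LK
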