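import Pool.Agent.Q224.LK.Dec
import Pool.Agent.Q265.LK.Bas

/-!
Project LK (helper7), job CR2T: the conditions outside `p`.
-/

set_option autoImplicit false

namespace Pool.Agent.Q224.LK

open NumberField IsDedekindDomain Filter Topology Finset
open Pool.Agent.Q7.LK
open Pool.Agent.Q265.LK (lpw_mul lpw_pow vl_mul vl_pow vl_ppow)

section

variable {p : ℕ} [hp : Fact p.Prime] {F L : Type} [Field F] [NumberField F] [Field L] [NumberField L]
  [Algebra F L] {d : F}

theorem exists_above (v : HeightOneSpectrum (𝓞 F)) :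
    ∃ P : HeightOneSpectrum (𝓞 L), P.asIdeal.LiesOver v.asIdeal := by
  have := v.isPrime
  obtain ⟨⟨P, hP1, hP2⟩⟩ := v.asIdeal.nonempty_primesOver (S := 𝓞 L)
  have h0 : P ≠ ⊥ := by
    rintro rfl
    apply v.ne_bot
    rw [hP2.over]
    exact Ideal.under_bot _ _
  exact ⟨⟨P, hP1, h0⟩, hP2⟩

theorem val_unit {K : Type} [Field K] [NumberField K] (P : HeightOneSpectrum (𝓞 K)) (u : (𝓞 K)ˣ) :
    P.valuation K ((u : 𝓞 K) : K) = 1 := by
  have h1 := P.valuation_le_one (K := K) (u : 𝓞 K)
  have h2 := P.valuation_le_one (K := K) ((u⁻¹ : (𝓞 K)ˣ) : 𝓞 K)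
  have h3 : P.valuation K ((u : 𝓞 K) : K) * P.valuation K (((u⁻¹ : (𝓞 K)ˣ) : 𝓞 K) : K) = 1 := by
    rw [← map_mul, ← coe_mul', mul_inv_cancel]
    simp
  refine le_antisymm h1 ?_
  by_contra hcon
  push Not at hcon
  have h4 := mul_lt_one_of_lt_of_le hcon h2
  exact absurd h3 h4.ne

/-- a root of unity -/
theorem val_root {K : Type} [Field K] [NumberField K] (P : HeightOneSpectrum (𝓞 K)) {z : K} {n : ℕ} (hn : n ≠ 0)
    (hz : z ^ n = 1) : P.valuation K z = 1 := by
  have h1 : (P.valuation K z) ^ n = 1 := by rw [← map_pow, hz, map_one]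
  rw [← one_pow (M := WithZero (Multiplicative ℤ)) n] at h1
  exact pow_left_injective hn h1

theorem val_p {v : HeightOneSpectrum (𝓞 F)} (hv : ¬ Dp p v) : v.valuation F (p : F) = 1 := by
  have h := (v.valuation_eq_one_iff_notMem (K := F) (r := (p : 𝓞 F))).2 hv
  rwa [map_natCast] at h

/-- products of elements close to `1` -/
theorem prod_near {K : Type} [Field K] [NumberField K] (P : HeightOneSpectrum (𝓞 K)) {ι : Type} (s : Finset ι)
    (q : ι → K) (hq : ∀ k ∈ s, P.valuation K (q k - 1) < 1) : P.valuation K (∏ k ∈ s, q k - 1) < 1 := by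
  classical
  induction s using Finset.induction_on with
  | empty => simp
  | insert a s ha ih =>
    rw [Finset.prod_insert ha]
    have h1 := hq a (mem_insert_self _ _)
    have h2 := ih fun k hk => hq k (mem_insert_of_mem hk)
    have h3 : P.valuation K (q a) ≤ 1 := by
      have e : q a = (q a - 1) + 1 := by ring
      rw [e]
      refine (Valuation.map_add _ _ _).trans (max_le h1.le ?_)
      rw [map_one]
    have e : q a * ∏ k ∈ s, q k - 1 = q a * (∏ k ∈ s, q k - 1) + (q a - 1) := by ring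
    rw [e]
    refine lt_of_le_of_lt (Valuation.map_add _ _ _) (max_lt ?_ h1)
    rw [map_mul]
    exact lt_of_le_of_lt (mul_le_of_le_one_left' h3) h2

/-- the case of an order divisible by `p` -/
theorem case_unr (hB : S_BAS) (hp2 : p ≠ 2) {ζ : F} (hζ : IsPrimitiveRoot ζ p) (hK : Kum p F L d)
    (hd : ¬ IsPow p d) {σ : L ≃ₐ[F] L} (hσ : σ ≠ 1) {v : HeightOneSpectrum (𝓞 F)} (hv : ¬ Dp p v) (w : (𝓞 L)ˣ)
    {y : L} (hy0 : y ≠ 0) (hy : ((w : 𝓞 L) : L) * y = σ y) (h0 : vl p v d = 0) :
    vl p v (Algebra.norm F y) = 0 := by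
  obtain ⟨ρ, hρ0, hρ, ⟨b, hb, hσρ⟩, hρn⟩ := root_data hp2 hζ hK hd hσ
  set z := ζ ^ b with hz
  obtain ⟨P, hP⟩ := exists_above (L := L) v
  have hval : ∀ x : F, P.valuation L (algebraMap F L x) =
      v.valuation F x ^ (v.asIdeal.ramificationIdx' P.asIdeal) := fun x =>
    (HeightOneSpectrum.valuation_liesOver L v P x).symm
  have he : v.asIdeal.ramificationIdx' P.asIdeal ≠ 0 :=
    Ideal.IsDedekindDomain.ramificationIdx'_ne_zero_of_liesOver P.asIdeal v.ne_bot
  set e := v.asIdeal.ramificationIdx' P.asIdeal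
  have hd0 := kum_ne hd
  have hvd : v.valuation F d ≠ 0 := (Valuation.ne_zero_iff _).2 hd0
  -- a number with the valuation of `ρ`
  obtain ⟨t, ht⟩ : ∃ t : F, v.valuation F t ^ p = v.valuation F d := by
    have h1 : (p : ℤ) ∣ WithZero.log (v.valuation F d) := by
      have h2 : ((WithZero.log (v.valuation F d) : ℤ) : ZMod p) = 0 := by
        unfold vl at h0
        exact neg_eq_zero.1 h0
      exact (ZMod.intCast_zmod_eq_zero_iff_dvd _ p).1 h2
    obtain ⟨n, hn⟩ := h1
    obtain ⟨t, ht⟩ := v.valuation_surjective F (WithZero.exp n)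
    refine ⟨t, ?_⟩
    rw [ht, ← WithZero.exp_nsmul, nsmul_eq_mul, ← hn, WithZero.exp_log hvd]
  have hPρ : P.valuation L ρ = v.valuation F t ^ e := by
    have h1 : P.valuation L ρ ^ p = (v.valuation F t ^ e) ^ p := by
      rw [← map_pow, hρ, hval, ← ht, ← pow_mul, ← pow_mul, mul_comm]
    exact pow_left_injective hp.out.ne_zero h1
  -- the eigenvectors
  choose c hc using fun i => eig_coord hK.deg hσ hb hρ0 hσρ y i
  have hPe : ∀ i, P.valuation L (eig p (algebraMap F L z) σ y i) = v.valuation F (c i * t ^ i) ^ e := by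
    intro i
    rw [hc i, map_mul, map_pow, hPρ, hval, map_mul, map_pow, mul_pow, ← pow_mul, ← pow_mul, mul_comm e i]
  have hunit : ∀ k : ℕ, P.valuation L ((σ ^ k) y) = P.valuation L y := by
    intro k
    have h1 : ∃ u : (𝓞 L)ˣ, (σ ^ k) y = ((u : 𝓞 L) : L) * y := by
      induction k with
      | zero => exact ⟨1, by simp⟩
      | succ k ih =>
        obtain ⟨u, hu⟩ := ih
        refine ⟨gU σ u * w, ?_⟩
        rw [pow_succ', AlgEquiv.mul_apply, hu, map_mul, ← hy, coe_mul', gU_coe, mul_assoc]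
    obtain ⟨u, hu⟩ := h1
    rw [hu, map_mul, val_unit, one_mul]
  have hle : ∀ i, P.valuation L (eig p (algebraMap F L z) σ y i) ≤ P.valuation L y := by
    intro i
    unfold eig
    have h1 : P.valuation L (p : L) = 1 := by
      have := hval (p : F)
      rwa [map_natCast, val_p hv, one_pow] at this
    rw [map_mul, map_inv₀, h1, inv_one, one_mul]
    refine Valuation.map_sum_le _ fun k _ => ?_
    have h2 : P.valuation L (algebraMap F L z) = 1 := by
      rw [hval, val_root v hp.out.ne_zero hb.pow_eq_one, one_pow]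
    rw [map_mul, map_pow, map_inv₀, h2, inv_one, one_pow, one_mul, hunit]
  obtain ⟨i, hi⟩ : ∃ i, P.valuation L y ≤ P.valuation L (eig p (algebraMap F L z) σ y i) := by
    by_contra hcon
    push Not at hcon
    have hzL : IsPrimitiveRoot (algebraMap F L z) p := hb.map_of_injective (algebraMap F L).injective
    have h1 : P.valuation L (∑ i ∈ range p, eig p (algebraMap F L z) σ y i) < P.valuation L y := by
      refine Valuation.map_sum_lt _ ((Valuation.ne_zero_iff _).2 hy0) fun i _ => hcon i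
    rw [eig_sum hzL] at h1
    exact lt_irrefl _ h1
  have hPy : P.valuation L y = v.valuation F (c i * t ^ i) ^ e := by
    rw [← hPe]
    exact le_antisymm hi (hle i)
  set s := c i * t ^ i with hs
  have hs0 : s ≠ 0 := by
    intro h
    rw [h, map_zero, zero_pow he] at hPy
    exact (Valuation.ne_zero_iff _).2 hy0 hPy
  have hN : v.valuation F (Algebra.norm F y) = v.valuation F (s ^ p) := by
    have h1 : v.valuation F (Algebra.norm F y) ^ e = v.valuation F (s ^ p) ^ e := by
      rw [← hval, norm_eq hK.deg hσ, map_prod, Finset.prod_congr rfl fun k _ => hunit k, Finset.prod_const,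
        Finset.card_range, hPy, map_pow, ← pow_mul, ← pow_mul, mul_comm]
    exact pow_left_injective he h1
  have h1 : vl p v (Algebra.norm F y) = vl p v (s ^ p) := by
    unfold vl
    rw [hN]
  rw [h1, vl_ppow hB v hs0]

/-- the case of an order not divisible by `p` -/
theorem case_ram (hB : S_BAS) (hp2 : p ≠ 2) {ζ : F} (hζ : IsPrimitiveRoot ζ p) (hK : Kum p F L d)
    (hd : ¬ IsPow p d) {σ : L ≃ₐ[F] L} (hσ : σ ≠ 1) {v : HeightOneSpectrum (𝓞 F)} (hv : ¬ Dp p v)
    {y : L} (hy0 : y ≠ 0) (h0 : vl p v d ≠ 0) :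
    ∃ j : ℕ, Lpw p v (Algebra.norm F y * d ^ j) := by
  obtain ⟨ρ, hρ0, hρ, ⟨b, hb, hσρ⟩, hρn⟩ := root_data hp2 hζ hK hd hσ
  set z := ζ ^ b with hz
  obtain ⟨P, hP⟩ := exists_above (L := L) v
  have hval : ∀ x : F, P.valuation L (algebraMap F L x) =
      v.valuation F x ^ (v.asIdeal.ramificationIdx' P.asIdeal) := fun x =>
    (HeightOneSpectrum.valuation_liesOver L v P x).symm
  have he : v.asIdeal.ramificationIdx' P.asIdeal ≠ 0 :=
    Ideal.IsDedekindDomain.ramificationIdx'_ne_zero_of_liesOver P.asIdeal v.ne_bot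
  set e := v.asIdeal.ramificationIdx' P.asIdeal
  have hd0 := kum_ne hd
  have hzL : IsPrimitiveRoot (algebraMap F L z) p := hb.map_of_injective (algebraMap F L).injective
  choose c hc using fun i => eig_coord hK.deg hσ hb hρ0 hσρ y i
  set E := eig p (algebraMap F L z) σ y with hE
  have hpw : ∀ i, E i ^ p = algebraMap F L (c i ^ p * d ^ i) := by
    intro i
    rw [hc i, mul_pow, ← pow_mul, mul_comm i p, pow_mul, hρ, map_mul, map_pow, map_pow]
  -- the largest one
  obtain ⟨i, hi, himax⟩ := Finset.exists_max_image (range p) (fun i => P.valuation L (E i))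
    ⟨0, mem_range.2 hp.out.pos⟩
  have hEi : E i ≠ 0 := by
    intro h
    apply hy0
    rw [← eig_sum hzL σ y]
    refine Finset.sum_eq_zero fun j hj => ?_
    have h1 := himax j hj
    simp only [h, map_zero] at h1
    have h2 := le_antisymm h1 zero_le
    exact (map_eq_zero (P.valuation L)).1 h2
  have hci : c i ≠ 0 := by
    intro h
    apply hEi
    rw [hc i, h, map_zero, zero_mul]
  have hlt : ∀ j ∈ range p, j ≠ i → P.valuation L (E j) < P.valuation L (E i) := by
    intro j hj hji
    refine lt_of_le_of_ne (himax j hj) ?_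
    intro heq
    have hcj : c j ≠ 0 := by
      intro h
      have h1 : E j = 0 := by rw [hc j, h, map_zero, zero_mul]
      rw [h1, map_zero] at heq
      exact (Valuation.ne_zero_iff _).2 hEi heq.symm
    have h1 : v.valuation F (c j ^ p * d ^ j) ^ e = v.valuation F (c i ^ p * d ^ i) ^ e := by
      rw [← hval, ← hval, ← hpw, ← hpw, map_pow, map_pow, heq]
    have h2 : v.valuation F (c j ^ p * d ^ j) = v.valuation F (c i ^ p * d ^ i) := pow_left_injective he h1
    have h3 : vl p v (c j ^ p * d ^ j) = vl p v (c i ^ p * d ^ i) := by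
      unfold vl
      rw [h2]
    have h4 : ∀ k, c k ≠ 0 → vl p v (c k ^ p * d ^ k) = k * vl p v d := by
      intro k hk
      rw [vl_mul hB v (pow_ne_zero _ hk) (pow_ne_zero _ hd0), vl_ppow hB v hk, vl_pow hB v hd0, zero_add]
    rw [h4 j hcj, h4 i hci] at h3
    have h5 : (j : ZMod p) = i := mul_right_cancel₀ h0 h3
    apply hji
    have h6 := (ZMod.natCast_eq_natCast_iff' j i p).1 h5
    rwa [Nat.mod_eq_of_lt (mem_range.1 hj), Nat.mod_eq_of_lt (mem_range.1 hi)] at h6
  -- the conjugates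
  have hzv : P.valuation L (algebraMap F L z) = 1 := by
    rw [hval, val_root v hp.out.ne_zero hb.pow_eq_one, one_pow]
  have hz0 : algebraMap F L z ≠ 0 := (map_ne_zero _).2 (hb.ne_zero hp.out.ne_zero)
  have hq : ∀ k ∈ range p, P.valuation L ((σ ^ k) y / (algebraMap F L z ^ (i * k) * E i) - 1) < 1 := by
    intro k _
    have hne : algebraMap F L z ^ (i * k) * E i ≠ 0 := mul_ne_zero (pow_ne_zero _ hz0) hEi
    have h1 : (σ ^ k) y / (algebraMap F L z ^ (i * k) * E i) - 1 =
        ((σ ^ k) y - algebraMap F L z ^ (i * k) * E i) / (algebraMap F L z ^ (i * k) * E i) := by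
      rw [sub_div, div_self hne]
    have h2 : (σ ^ k) y - algebraMap F L z ^ (i * k) * E i =
        ∑ j ∈ (range p).erase i, algebraMap F L z ^ (j * k) * E j := by
      have h3 : (σ ^ k) y = ∑ j ∈ range p, algebraMap F L z ^ (j * k) * E j := by
        conv_lhs => rw [← eig_sum hzL σ y]
        rw [map_sum]
        exact Finset.sum_congr rfl fun j _ => eig_conj_pow hK.deg hσ hb y j k
      rw [h3, ← Finset.add_sum_erase _ _ hi, add_sub_cancel_left]
    rw [h1, h2, map_div₀, map_mul (P.valuation L), map_pow (P.valuation L), hzv, one_pow, one_mul]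
    have hvi : P.valuation L (E i) ≠ 0 := (Valuation.ne_zero_iff _).2 hEi
    rw [div_lt_one₀ (zero_lt_iff.2 hvi)]
    refine Valuation.map_sum_lt _ hvi fun j hj => ?_
    rw [map_mul (P.valuation L), map_pow (P.valuation L), hzv, one_pow, one_mul]
    exact hlt j (mem_of_mem_erase hj) (ne_of_mem_erase hj)
  have h1 := prod_near P (range p) _ hq
  have h2 : ∏ k ∈ range p, (σ ^ k) y / (algebraMap F L z ^ (i * k) * E i) =
      algebraMap F L (Algebra.norm F y / (c i ^ p * d ^ i)) := by
    rw [Finset.prod_div_distrib, ← norm_eq hK.deg hσ, map_div₀, ← hpw, Finset.prod_mul_distrib, Finset.prod_const,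
      Finset.card_range, Finset.prod_pow_eq_pow_sum, ← Finset.mul_sum]
    have h6 : (algebraMap F L z) ^ (i * ∑ k ∈ range p, k) = 1 := by
      rw [hzL.pow_eq_one_iff_dvd]
      apply Dvd.dvd.mul_left
      rw [Finset.sum_range_id]
      obtain ⟨m, hm⟩ := hp.out.odd_of_ne_two hp2
      have : p * (p - 1) / 2 = p * m := by
        rw [hm]
        have : (2 * m + 1) * (2 * m + 1 - 1) = ((2 * m + 1) * m) * 2 := by
          rw [Nat.add_sub_cancel]; ring
        rw [this, Nat.mul_div_cancel _ (by norm_num)]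
      rw [this]
      exact dvd_mul_right _ _
    rw [h6, one_mul]
  rw [h2, ← map_one (algebraMap F L), ← map_sub, hval] at h1
  have h3 : v.valuation F (Algebra.norm F y / (c i ^ p * d ^ i) - 1) < 1 := by
    by_contra hcon
    push Not at hcon
    exact absurd h1 (not_lt.2 (one_le_pow₀ hcon))
  refine ⟨(p - 1) * i, ?_⟩
  apply (hB p F v).2.2.2.2.2.1 _ (1 / (c i * d ^ i))
  have h4 : Algebra.norm F y * d ^ ((p - 1) * i) * (1 / (c i * d ^ i)) ^ p =
      Algebra.norm F y / (c i ^ p * d ^ i) := by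
    have h5 : (c i * d ^ i) ^ p = c i ^ p * d ^ i * d ^ ((p - 1) * i) := by
      rw [mul_pow, mul_assoc, ← pow_add, ← pow_mul]
      congr 2
      obtain ⟨q, hq⟩ := Nat.exists_eq_add_of_le hp.out.one_le
      rw [hq, Nat.add_sub_cancel_left]; ring
    rw [div_pow, one_pow, h5, mul_one_div, mul_div_mul_right _ _ (pow_ne_zero _ hd0)]
  rw [h4, map_pow, val_p hv, one_pow]
  exact h3

end

theorem cr2t : S_BAS → S_CR2T := by
  intro hB p hp hp2 F L _ _ _ _ _ ζ d hζ hK hd σ hσ v hv w y hy0 hy
  exact ⟨case_unr hB hp2 hζ hK hd hσ hv w hy0 hy, case_ram hB hp2 hζ hK hd hσ hv hy0⟩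

end Pool.Agent.Q224.LK
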