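import Pool.Agent.Q224.LK.CR2

/-!
Project LK (helper7): the decomposition of the elements of `F(d^(1/p))` into eigenvectors.
-/

set_option autoImplicit false

namespace Pool.Agent.Q224.LK

open NumberField IsDedekindDomain Filter Topology Finset
open Pool.Agent.Q7.LK

section

variable {p : ℕ} [hp : Fact p.Prime] {F L : Type} [Field F] [NumberField F] [Field L] [NumberField L]
  [Algebra F L] {d : F}

/-- the eigenvectors -/
noncomputable def eig (p : ℕ) (z : L) (σ : L ≃ₐ[F] L) (y : L) (i : ℕ) : L :=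
  (p : L)⁻¹ * ∑ k ∈ range p, (z⁻¹) ^ (i * k) * (σ ^ k) y

theorem eig_sum {z : L} (hz : IsPrimitiveRoot z p) (σ : L ≃ₐ[F] L) (y : L) :
    ∑ i ∈ range p, eig p z σ y i = y := by
  unfold eig
  rw [← Finset.mul_sum, Finset.sum_comm]
  have h1 : ∀ k ∈ range p, ∑ i ∈ range p, (z⁻¹) ^ (i * k) * (σ ^ k) y = if k = 0 then (p : L) * y else 0 := by
    intro k hk
    rw [mem_range] at hk
    rw [← Finset.sum_mul]
    split_ifs with h0
    · subst h0
      simp
    · have h2 : ∑ i ∈ range p, (z⁻¹) ^ (i * k) = 0 := by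
        have h3 : ((z⁻¹) ^ k) ^ p = 1 := by
          rw [← pow_mul, mul_comm, pow_mul, hz.inv.pow_eq_one, one_pow]
        have h4 : (z⁻¹) ^ k ≠ 1 := hz.inv.pow_ne_one_of_pos_of_lt h0 hk
        have h5 : (∑ i ∈ range p, ((z⁻¹) ^ k) ^ i) * ((z⁻¹) ^ k - 1) = 0 := by
          rw [geom_sum_mul, h3, sub_self]
        have h6 := (mul_eq_zero.1 h5).resolve_right (sub_ne_zero.2 h4)
        rw [← h6]
        refine Finset.sum_congr rfl fun i _ => ?_
        rw [← pow_mul, mul_comm]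
      rw [h2, zero_mul]
  rw [Finset.sum_congr rfl h1, Finset.sum_ite_eq' (range p) 0, if_pos (mem_range.2 hp.out.pos), ← mul_assoc,
    inv_mul_cancel₀ (by exact_mod_cast hp.out.ne_zero), one_mul]

theorem eig_conj (h : Module.finrank F L = p) {σ : L ≃ₐ[F] L} (hσ : σ ≠ 1) {z : F} (hz : IsPrimitiveRoot z p)
    (y : L) (i : ℕ) : σ (eig p (algebraMap F L z) σ y i) =
      algebraMap F L z ^ i * eig p (algebraMap F L z) σ y i := by
  have hz0 : algebraMap F L z ≠ 0 := (map_ne_zero _).2 (hz.ne_zero hp.out.ne_zero)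
  have hzp : algebraMap F L z ^ p = 1 := by rw [← map_pow, hz.pow_eq_one, map_one]
  have hsp : σ ^ p = 1 := by rw [← order_eq h hσ]; exact pow_orderOf_eq_one σ
  unfold eig
  rw [map_mul, map_inv₀, map_natCast, map_sum, mul_left_comm]
  congr 1
  have h1 : ∀ k : ℕ, σ ((algebraMap F L z)⁻¹ ^ (i * k) * (σ ^ k) y) =
      algebraMap F L z ^ i * ((algebraMap F L z)⁻¹ ^ (i * (k + 1)) * (σ ^ (k + 1)) y) := by
    intro k
    rw [map_mul, map_pow, map_inv₀, AlgEquiv.commutes, pow_succ' σ, AlgEquiv.mul_apply, mul_add, mul_one, pow_add,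
      ← mul_assoc, ← mul_assoc]
    congr 1
    rw [mul_comm (algebraMap F L z ^ i), mul_assoc, ← mul_pow, mul_inv_cancel₀ hz0, one_pow, mul_one]
  rw [Finset.sum_congr rfl fun k _ => h1 k, ← Finset.mul_sum]
  congr 1
  have h2 := Finset.sum_range_succ (fun k => (algebraMap F L z)⁻¹ ^ (i * k) * (σ ^ k) y) p
  have h3 := Finset.sum_range_succ' (fun k => (algebraMap F L z)⁻¹ ^ (i * k) * (σ ^ k) y) p
  rw [h3] at h2
  have h4 : (algebraMap F L z)⁻¹ ^ (i * p) * (σ ^ p) y = (algebraMap F L z)⁻¹ ^ (i * 0) * (σ ^ 0) y := by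
    rw [mul_comm i p, pow_mul, inv_pow, hzp, inv_one, one_pow, hsp]
    simp
  rw [h4] at h2
  exact add_right_cancel h2

theorem eig_conj_pow (h : Module.finrank F L = p) {σ : L ≃ₐ[F] L} (hσ : σ ≠ 1) {z : F} (hz : IsPrimitiveRoot z p)
    (y : L) (i k : ℕ) : (σ ^ k) (eig p (algebraMap F L z) σ y i) =
      algebraMap F L z ^ (i * k) * eig p (algebraMap F L z) σ y i := by
  induction k with
  | zero => simp
  | succ k ih =>
    rw [pow_succ', AlgEquiv.mul_apply, ih, map_mul, map_pow, AlgEquiv.commutes, eig_conj h hσ hz, mul_add, mul_one,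
      pow_add]
    ring

/-- the coordinates -/
theorem eig_coord (h : Module.finrank F L = p) {σ : L ≃ₐ[F] L} (hσ : σ ≠ 1) {z : F} (hz : IsPrimitiveRoot z p)
    {ρ : L} (hρ0 : ρ ≠ 0) (hρ : σ ρ = algebraMap F L z * ρ) (y : L) (i : ℕ) :
    ∃ c : F, eig p (algebraMap F L z) σ y i = algebraMap F L c * ρ ^ i := by
  have hz0 : algebraMap F L z ≠ 0 := (map_ne_zero _).2 (hz.ne_zero hp.out.ne_zero)
  have h1 : σ (eig p (algebraMap F L z) σ y i / ρ ^ i) = eig p (algebraMap F L z) σ y i / ρ ^ i := by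
    rw [map_div₀, map_pow, eig_conj h hσ hz, hρ, mul_pow, mul_div_mul_left _ _ (pow_ne_zero _ hz0)]
  obtain ⟨c, hc⟩ := fixed h hσ h1
  exact ⟨c, by rw [hc, div_mul_cancel₀ _ (pow_ne_zero _ hρ0)]⟩

end

end Pool.Agent.Q224.LK
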