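import Pool.Agent.Q7.LK.Stm

/-!
Project LK (helper7): the Galois group of `F(d^(1/p))`.
-/

set_option autoImplicit false

namespace Pool.Agent.Q224.LK

open NumberField IsDedekindDomain Filter Topology Finset
open Pool.Agent.Q7.LK

section gal

variable {p : ℕ} [hp : Fact p.Prime] {F L : Type} [Field F] [NumberField F] [Field L] [NumberField L]
  [Algebra F L] {d : F}

theorem card_zpowers (h : Module.finrank F L = p) {σ : L ≃ₐ[F] L} (hσ : σ ≠ 1) :
    Nat.card (Subgroup.zpowers σ) = p := by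
  have h1 := IntermediateField.finrank_fixedField_eq_card (F := F) (E := L) (H := Subgroup.zpowers σ)
  have h2 := Module.finrank_mul_finrank F (IntermediateField.fixedField (Subgroup.zpowers σ)) L
  rw [h, h1] at h2
  have h3 : Nat.card (Subgroup.zpowers σ) ∣ p := Dvd.intro_left _ h2
  rcases (Nat.dvd_prime hp.out).1 h3 with h4 | h4
  · exfalso
    apply hσ
    rw [Nat.card_zpowers] at h4
    exact orderOf_eq_one_iff.1 h4
  · exact h4

theorem order_eq (h : Module.finrank F L = p) {σ : L ≃ₐ[F] L} (hσ : σ ≠ 1) : orderOf σ = p := by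
  rw [← Nat.card_zpowers]
  exact card_zpowers h hσ

theorem isGal (h : Module.finrank F L = p) {σ : L ≃ₐ[F] L} (hσ : σ ≠ 1) : IsGalois F L := by
  apply IsGalois.of_fixedField_eq_bot
  rw [← IntermediateField.finrank_eq_one_iff]
  have h2 := Module.finrank_mul_finrank F (IntermediateField.fixedField (⊤ : Subgroup (L ≃ₐ[F] L))) L
  have h1 := IntermediateField.finrank_fixedField_eq_card (F := F) (E := L) (H := (⊤ : Subgroup (L ≃ₐ[F] L)))
  have h3 : Nat.card (Subgroup.zpowers σ) ≤ Nat.card (⊤ : Subgroup (L ≃ₐ[F] L)) :=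
    Subgroup.card_le_of_le le_top
  rw [card_zpowers h hσ] at h3
  rw [h, h1] at h2
  have hp0 := hp.out.pos
  set a := Module.finrank F (IntermediateField.fixedField (⊤ : Subgroup (L ≃ₐ[F] L))) with ha
  set b := Nat.card (⊤ : Subgroup (L ≃ₐ[F] L)) with hb
  have ha0 : 0 < a := Nat.pos_of_ne_zero (by rintro h0; rw [h0, zero_mul] at h2; omega)
  by_contra hne
  have : 2 ≤ a := by omega
  nlinarith

theorem gen (h : Module.finrank F L = p) {σ : L ≃ₐ[F] L} (hσ : σ ≠ 1) (τ : L ≃ₐ[F] L) :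
    τ ∈ Subgroup.zpowers σ := by
  have := isGal h hσ
  have h1 : Nat.card (L ≃ₐ[F] L) = p := by rw [IsGalois.card_aut_eq_finrank, h]
  have h2 : Subgroup.zpowers σ = ⊤ := by
    apply Subgroup.eq_top_of_card_eq
    rw [card_zpowers h hσ, h1]
  rw [h2]
  exact Subgroup.mem_top _

theorem norm_eq (h : Module.finrank F L = p) {σ : L ≃ₐ[F] L} (hσ : σ ≠ 1) (x : L) :
    algebraMap F L (Algebra.norm F x) = ∏ k ∈ range p, (σ ^ k) x := by
  classical
  have := isGal h hσ
  rw [Algebra.norm_eq_prod_automorphisms]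
  symm
  refine Finset.prod_bij (fun k _ => σ ^ k) (fun _ _ => mem_univ _) ?_ ?_ (fun _ _ => rfl)
  · intro a ha b hb hab
    rw [mem_range, ← order_eq h hσ] at ha hb
    exact pow_injOn_Iio_orderOf ha hb hab
  · intro τ _
    have h1 := gen h hσ τ
    obtain ⟨k, hk⟩ := (isOfFinOrder_of_finite σ).mem_powers_iff_mem_zpowers.2 h1
    refine ⟨k % p, mem_range.2 (Nat.mod_lt _ hp.out.pos), ?_⟩
    have h2 := pow_mod_orderOf σ k
    rw [order_eq h hσ] at h2
    show σ ^ (k % p) = τ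
    rw [h2]
    exact hk

theorem norm_conj (h : Module.finrank F L = p) {σ : L ≃ₐ[F] L} (hσ : σ ≠ 1) (x : L) :
    Algebra.norm F (σ x) = Algebra.norm F x := by
  have := isGal h hσ
  exact Algebra.norm_eq_of_algEquiv σ x

theorem fixed (h : Module.finrank F L = p) {σ : L ≃ₐ[F] L} (hσ : σ ≠ 1) {x : L} (hx : σ x = x) :
    ∃ y : F, algebraMap F L y = x := by
  have := isGal h hσ
  have h1 : ∀ τ : L ≃ₐ[F] L, τ x = x := by
    intro τ
    obtain ⟨k, hk⟩ := (isOfFinOrder_of_finite σ).mem_powers_iff_mem_zpowers.2 (gen h hσ τ)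
    have h2 : ∀ k : ℕ, (σ ^ k) x = x := by
      intro k
      induction k with
      | zero => rfl
      | succ k ih => rw [pow_succ, AlgEquiv.mul_apply, hx, ih]
    have h3 : σ ^ k = τ := hk
    rw [← h3]
    exact h2 k
  exact (IsGalois.mem_range_algebraMap_iff_fixed x).2 h1

theorem kum_ne (hd : ¬ IsPow p d) : d ≠ 0 := by
  rintro rfl
  exact hd ⟨0, by rw [zero_pow hp.out.ne_zero]⟩

theorem root_data (hp2 : p ≠ 2) {ζ : F} (hζ : IsPrimitiveRoot ζ p) (hK : Kum p F L d) (hd : ¬ IsPow p d)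
    {σ : L ≃ₐ[F] L} (hσ : σ ≠ 1) : ∃ ρ : L, ρ ≠ 0 ∧ ρ ^ p = algebraMap F L d ∧
      (∃ b : ℕ, IsPrimitiveRoot (ζ ^ b) p ∧ σ ρ = algebraMap F L (ζ ^ b) * ρ) ∧ Algebra.norm F ρ = d := by
  obtain ⟨ρ, hρ⟩ := hK.root
  have hd0 := kum_ne hd
  have hρ0 : ρ ≠ 0 := by
    rintro rfl
    rw [zero_pow hp.out.ne_zero] at hρ
    exact hd0 ((map_eq_zero (algebraMap F L)).1 hρ.symm)
  have hζL : IsPrimitiveRoot (algebraMap F L ζ) p := hζ.map_of_injective (algebraMap F L).injective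
  have h1 : (σ ρ / ρ) ^ p = 1 := by
    rw [div_pow, ← map_pow, hρ, AlgEquiv.commutes, div_self]
    exact (map_ne_zero _).2 hd0
  have : NeZero p := ⟨hp.out.ne_zero⟩
  obtain ⟨b, -, hb⟩ := hζL.eq_pow_of_pow_eq_one h1
  have h2 : σ ρ = algebraMap F L (ζ ^ b) * ρ := by
    rw [map_pow, hb, div_mul_cancel₀ _ hρ0]
  have h3 : ζ ^ b ≠ 1 := by
    intro h
    rw [h, map_one, one_mul] at h2
    obtain ⟨y, hy⟩ := fixed hK.deg hσ h2
    apply hd
    refine ⟨y, ?_⟩
    apply (algebraMap F L).injective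
    rw [map_pow, hy, hρ]
  have h4 : IsPrimitiveRoot (ζ ^ b) p := by
    have h5 : (ζ ^ b) ^ p = 1 := by rw [← pow_mul, mul_comm, pow_mul, hζ.pow_eq_one, one_pow]
    exact (IsPrimitiveRoot.iff_orderOf).2 (orderOf_eq_prime h5 h3)
  refine ⟨ρ, hρ0, hρ, ⟨b, h4, h2⟩, ?_⟩
  apply (algebraMap F L).injective
  rw [norm_eq hK.deg hσ]
  have h5 : ∀ k : ℕ, (σ ^ k) ρ = algebraMap F L (ζ ^ b) ^ k * ρ := by
    intro k
    induction k with
    | zero => simp
    | succ k ih =>
      rw [pow_succ, AlgEquiv.mul_apply, h2, map_mul, AlgEquiv.commutes, ih]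
      ring
  rw [Finset.prod_congr rfl fun k _ => h5 k, Finset.prod_mul_distrib, Finset.prod_const, Finset.card_range, hρ,
    Finset.prod_pow_eq_pow_sum, ← map_pow]
  have h6 : (ζ ^ b) ^ (∑ k ∈ range p, k) = 1 := by
    rw [Finset.sum_range_id, h4.pow_eq_one_iff_dvd]
    obtain ⟨m, hm⟩ := hp.out.odd_of_ne_two hp2
    have : p * (p - 1) / 2 = p * m := by
      rw [hm]
      have : (2 * m + 1) * (2 * m + 1 - 1) = ((2 * m + 1) * m) * 2 := by
        rw [Nat.add_sub_cancel]; ring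
      rw [this, Nat.mul_div_cancel _ (by norm_num)]
    rw [this]
    exact dvd_mul_right _ _
  rw [h6, map_one, one_mul]

end gal

end Pool.Agent.Q224.LK
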